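import Pool.Agent.Q127.SL.Rep
import Mathlib.LinearAlgebra.Multilinear.Basic
import Mathlib.Algebra.Polynomial.Roots

/-!
# Elements of `U(sl(2))` which commute with `E` and `H` are polynomials in the Casimir element
-/

set_option autoImplicit false
set_option linter.unusedSectionVars false
set_option linter.unusedSimpArgs false

namespace Pool.Agent.Q127.SL

open Polynomial

attribute [local instance 100] LieRing.ofAssociativeRing

/-- The Casimir element of `U(sl(2))`. -/
noncomputable def casU : U2 := casimir elE elF elH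

theorem relE1 : elE * elF = elF * elE + elH := by rw [← rel_ef]; abel
theorem relE2 : elH * elE = elE * elH + (2 : ℂ) • elE := by rw [← rel_he]; abel
theorem relE3 : elH * elF = elF * elH - (2 : ℂ) • elF := by
  have := rel_hf
  rw [sub_eq_iff_eq_add] at this
  rw [this]
  module
theorem relE1' (z : U2) : elE * (elF * z) = elF * (elE * z) + elH * z := by
  rw [← mul_assoc, relE1, add_mul, mul_assoc]
theorem relE2' (z : U2) : elH * (elE * z) = elE * (elH * z) + (2 : ℂ) • (elE * z) := by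
  rw [← mul_assoc, relE2, add_mul, mul_assoc, smul_mul_assoc]
theorem relE3' (z : U2) : elH * (elF * z) = elF * (elH * z) - (2 : ℂ) • (elF * z) := by
  rw [← mul_assoc, relE3, sub_mul, mul_assoc, smul_mul_assoc]

theorem casU_comm_E : Commute casU elE := by
  unfold casU casimir Commute SemiconjBy
  simp only [mul_assoc, relE1, relE2, relE3, relE1', relE2', relE3', mul_add, add_mul, mul_sub,
    sub_mul, smul_mul_assoc, mul_smul_comm, smul_add, smul_sub, smul_smul]
  module

theorem casU_comm_F : Commute casU elF := by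
  unfold casU casimir Commute SemiconjBy
  simp only [mul_assoc, relE1, relE2, relE3, relE1', relE2', relE3', mul_add, add_mul, mul_sub,
    sub_mul, smul_mul_assoc, mul_smul_comm, smul_add, smul_sub, smul_smul]
  module

theorem casU_comm_H : Commute casU elH := by
  unfold casU casimir Commute SemiconjBy
  simp only [mul_assoc, relE1, relE2, relE3, relE1', relE2', relE3', mul_add, add_mul, mul_sub,
    sub_mul, smul_mul_assoc, mul_smul_comm, smul_add, smul_sub, smul_smul]
  module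

theorem aeval_comm {x : U2} (h : Commute casU x) (q : ℂ[X]) : Commute (aeval casU q) x := by
  induction q using Polynomial.induction_on' with
  | add p q hp hq => rw [map_add]; exact hp.add_left hq
  | monomial i a =>
    rw [aeval_monomial]
    exact (show Commute (algebraMap ℂ U2 a) x from Algebra.commutes a x).mul_left (h.pow_left i)

/-- Polynomials in `H` with coefficients in the polynomials in `C`. -/
noncomputable def Phi : ℂ[X][X] →+* U2 :=
  eval₂RingHom' (aeval casU : ℂ[X] →ₐ[ℂ] U2).toRingHom elH (fun q => aeval_comm casU_comm_H q)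

theorem Phi_monomial (i : ℕ) (q : ℂ[X]) : Phi (monomial i q) = aeval casU q * elH ^ i := by
  show eval₂ _ _ _ = _
  rw [eval₂_monomial]
  rfl

theorem Phi_C (q : ℂ[X]) : Phi (C q) = aeval casU q := by
  rw [← monomial_zero_left, Phi_monomial, pow_zero, mul_one]

theorem Phi_X : Phi X = elH := by
  rw [← monomial_one_one_eq_X, Phi_monomial]
  simp

theorem Phi_const (a : ℂ) : Phi (C (C a)) = algebraMap ℂ U2 a := by
  rw [Phi_C, aeval_C]

/-- `Phi` as a linear map. -/
noncomputable def PhiL : ℂ[X][X] →ₗ[ℂ] U2 where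
  toFun := Phi
  map_add' := map_add Phi
  map_smul' a P := by
    have : a • P = C (C a) * P := by
      rw [← smul_eq_C_mul, ← smul_one_smul ℂ[X] a P]
      congr 1
      rw [smul_eq_C_mul, mul_one]
    rw [this, map_mul, Phi_const, RingHom.id_apply, Algebra.smul_def]

theorem Phi_shift {x : U2} (s : ℂ) (hx : SemiconjBy x (elH + algebraMap ℂ U2 s) elH)
    (hc : Commute casU x) (P : ℂ[X][X]) :
    Phi P * x = x * Phi (P.comp (X + C (C s))) := by
  induction P using Polynomial.induction_on' with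
  | add P Q hP hQ => rw [map_add, add_mul, hP, hQ, add_comp, map_add, mul_add]
  | monomial i q =>
    rw [Phi_monomial, monomial_comp, map_mul, Phi_C, map_pow, map_add, Phi_X, Phi_const,
      mul_assoc, ← (hx.pow_right i).eq, ← mul_assoc, (aeval_comm hc q).eq, mul_assoc]

theorem semi_E : SemiconjBy elE (elH + algebraMap ℂ U2 2) elH := by
  unfold SemiconjBy
  rw [relE2, mul_add, ← Algebra.commutes, ← Algebra.smul_def]

theorem semi_F : SemiconjBy elF (elH + algebraMap ℂ U2 (-2)) elH := by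
  unfold SemiconjBy
  rw [relE3, mul_add, ← Algebra.commutes, ← Algebra.smul_def]
  module

theorem EF_eq : elE * elF = Phi (C (2 * X) - C (C (1 / 4)) * X ^ 2 + C (C (1 / 2)) * X) := by
  have h4 : Phi (C (C (1 / 4)) * X ^ 2) = (1 / 4 : ℂ) • (elH * elH) := by
    rw [map_mul, map_pow, Phi_X, Phi_const, pow_two, Algebra.smul_def]
  have h2 : Phi (C (C (1 / 2)) * X) = (1 / 2 : ℂ) • elH := by
    rw [map_mul, Phi_X, Phi_const, Algebra.smul_def]
  have hc : Phi (C (2 * X)) = (2 : ℂ) • casU := by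
    have h0 : (2 : ℂ[X]) = C 2 := (map_ofNat (C : ℂ →+* ℂ[X]) 2).symm
    rw [Phi_C, map_mul, aeval_X, Algebra.smul_def, h0, aeval_C]
  rw [map_add, map_sub, h4, h2, hc]
  unfold casU casimir
  rw [relE1]
  module

theorem FE_eq : elF * elE = Phi (C (2 * X) - C (C (1 / 4)) * X ^ 2 - C (C (1 / 2)) * X) := by
  have h4 : Phi (C (C (1 / 4)) * X ^ 2) = (1 / 4 : ℂ) • (elH * elH) := by
    rw [map_mul, map_pow, Phi_X, Phi_const, pow_two, Algebra.smul_def]
  have h2 : Phi (C (C (1 / 2)) * X) = (1 / 2 : ℂ) • elH := by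
    rw [map_mul, Phi_X, Phi_const, Algebra.smul_def]
  have hc : Phi (C (2 * X)) = (2 : ℂ) • casU := by
    have h0 : (2 : ℂ[X]) = C 2 := (map_ofNat (C : ℂ →+* ℂ[X]) 2).symm
    rw [Phi_C, map_mul, aeval_X, Algebra.smul_def, h0, aeval_C]
  rw [map_sub, map_sub, h4, h2, hc]
  unfold casU casimir
  rw [relE1]
  module

/-- The generator of weight `2 k`. -/
noncomputable def gk (k : ℤ) : U2 := elE ^ k.toNat * elF ^ (-k).toNat

/-- The weight spaces. -/
noncomputable def Mk (k : ℤ) : Submodule ℂ U2 :=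
  (LinearMap.range PhiL).map (LinearMap.mulLeft ℂ (gk k))

theorem mem_Mk (k : ℤ) (z : U2) : z ∈ Mk k ↔ ∃ P : ℂ[X][X], gk k * Phi P = z := by
  unfold Mk
  rw [Submodule.mem_map]
  constructor
  · rintro ⟨_, ⟨P, rfl⟩, rfl⟩
    exact ⟨P, rfl⟩
  · rintro ⟨P, rfl⟩
    exact ⟨Phi P, ⟨P, rfl⟩, rfl⟩

theorem gk_nat (k : ℕ) : gk k = elE ^ k := by simp [gk]

theorem gk_neg (k : ℕ) : gk (-k) = elF ^ k := by simp [gk]

theorem exists_shift_pow {x : U2} (s : ℂ) (hx : SemiconjBy x (elH + algebraMap ℂ U2 s) elH)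
    (hc : Commute casU x) (P : ℂ[X][X]) : ∀ j : ℕ, ∃ Q : ℂ[X][X], Phi P * x ^ j = x ^ j * Phi Q
  | 0 => ⟨P, by simp⟩
  | j + 1 => by
    obtain ⟨Q, hQ⟩ := exists_shift_pow s hx hc P j
    refine ⟨Q.comp (X + C (C s)), ?_⟩
    rw [pow_succ, ← mul_assoc, hQ, mul_assoc, Phi_shift s hx hc, ← mul_assoc]

theorem E_mul_Mk (k : ℤ) (z : U2) (hz : z ∈ Mk k) : elE * z ∈ Mk (k + 1) := by
  rw [mem_Mk] at hz ⊢
  obtain ⟨P, rfl⟩ := hz
  rcases lt_or_ge k 0 with h | h
  · obtain ⟨j, rfl⟩ : ∃ j : ℕ, k = -((j + 1 : ℕ) : ℤ) := ⟨(-k).toNat - 1, by omega⟩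
    obtain ⟨Q, hQ⟩ := exists_shift_pow (-2) semi_F casU_comm_F
      (C (2 * X) - C (C (1 / 4)) * X ^ 2 + C (C (1 / 2)) * X) j
    refine ⟨Q * P, ?_⟩
    have e1 : -((j + 1 : ℕ) : ℤ) + 1 = -(j : ℤ) := by push_cast; ring
    rw [e1, gk_neg, gk_neg, map_mul, ← mul_assoc, ← hQ, ← EF_eq, pow_succ']
    simp only [mul_assoc]
  · obtain ⟨j, rfl⟩ : ∃ j : ℕ, k = j := ⟨k.toNat, by omega⟩
    refine ⟨P, ?_⟩
    have e1 : (j : ℤ) + 1 = ((j + 1 : ℕ) : ℤ) := by push_cast; ring
    rw [e1, gk_nat, gk_nat, pow_succ', mul_assoc]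

theorem F_mul_Mk (k : ℤ) (z : U2) (hz : z ∈ Mk k) : elF * z ∈ Mk (k - 1) := by
  rw [mem_Mk] at hz ⊢
  obtain ⟨P, rfl⟩ := hz
  rcases lt_or_ge 0 k with h | h
  · obtain ⟨j, rfl⟩ : ∃ j : ℕ, k = ((j + 1 : ℕ) : ℤ) := ⟨k.toNat - 1, by omega⟩
    obtain ⟨Q, hQ⟩ := exists_shift_pow 2 semi_E casU_comm_E
      (C (2 * X) - C (C (1 / 4)) * X ^ 2 - C (C (1 / 2)) * X) j
    refine ⟨Q * P, ?_⟩
    have e1 : ((j + 1 : ℕ) : ℤ) - 1 = (j : ℤ) := by push_cast; ring
    rw [e1, gk_nat, gk_nat, map_mul, ← mul_assoc, ← hQ, ← FE_eq, pow_succ']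
    simp only [mul_assoc]
  · obtain ⟨j, rfl⟩ : ∃ j : ℕ, k = -(j : ℤ) := ⟨(-k).toNat, by omega⟩
    refine ⟨P, ?_⟩
    have e1 : -(j : ℤ) - 1 = -((j + 1 : ℕ) : ℤ) := by push_cast; ring
    rw [e1, gk_neg, gk_neg, pow_succ', mul_assoc]

theorem H_mul_gk (k : ℤ) : elH * gk k = gk k * (elH + algebraMap ℂ U2 (2 * k)) := by
  have hE : ∀ j : ℕ, elH * elE ^ j = elE ^ j * (elH + algebraMap ℂ U2 (2 * j)) := by
    intro j
    induction j with
    | zero => simp
    | succ j ih =>
      rw [pow_succ, ← mul_assoc, ih, mul_assoc, add_mul, ← semi_E.eq, Algebra.commutes, mul_assoc,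
        ← mul_add, add_assoc, ← map_add]
      congr 5
      push_cast
      ring
  have hF : ∀ j : ℕ, elH * elF ^ j = elF ^ j * (elH + algebraMap ℂ U2 (-(2 * j))) := by
    intro j
    induction j with
    | zero => simp
    | succ j ih =>
      rw [pow_succ, ← mul_assoc, ih, mul_assoc, add_mul, ← semi_F.eq, Algebra.commutes, mul_assoc,
        ← mul_add, add_assoc, ← map_add]
      congr 5
      push_cast
      ring
  rcases lt_or_ge k 0 with h | h
  · obtain ⟨j, rfl⟩ : ∃ j : ℕ, k = -(j : ℤ) := ⟨(-k).toNat, by omega⟩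
    rw [gk_neg, hF]
    congr 3
    push_cast
    ring
  · obtain ⟨j, rfl⟩ : ∃ j : ℕ, k = j := ⟨k.toNat, by omega⟩
    rw [gk_nat, hE]
    congr 3

theorem H_mul_Mk (k : ℤ) (z : U2) (hz : z ∈ Mk k) : elH * z ∈ Mk k := by
  rw [mem_Mk] at hz ⊢
  obtain ⟨P, rfl⟩ := hz
  refine ⟨(X + C (C (2 * k : ℂ))) * P, ?_⟩
  rw [← mul_assoc, H_mul_gk, map_mul, map_add, Phi_X, Phi_const, mul_assoc]

/-- The operator `z ↦ H z - z H`. -/
noncomputable def adH : Module.End ℂ U2 := LinearMap.mulLeft ℂ elH - LinearMap.mulRight ℂ elH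

theorem Mk_le (k : ℤ) : Mk k ≤ adH.eigenspace (2 * k : ℂ) := by
  intro z hz
  rw [mem_Mk] at hz
  obtain ⟨P, rfl⟩ := hz
  rw [Module.End.mem_eigenspace_iff]
  show elH * (gk k * Phi P) - (gk k * Phi P) * elH = _
  have e1 : Phi P * elH = elH * Phi P := by rw [← Phi_X, ← map_mul, ← map_mul, mul_comm]
  rw [← mul_assoc, H_mul_gk, mul_assoc, mul_assoc, e1, add_mul, mul_add, ← Algebra.smul_def,
    mul_smul_comm]
  abel

theorem iota_eq (M : LieAlgebra.SpecialLinear.sl (Fin 2) ℂ) :
    UniversalEnvelopingAlgebra.ι ℂ M = M.val 0 0 • elH + M.val 0 1 • elE + M.val 1 0 • elF := by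
  have hM : M.val 1 1 = - M.val 0 0 := by
    have h1 : M.val.trace = 0 := M.2
    rw [Matrix.trace_fin_two] at h1
    linear_combination h1
  have key : M = M.val 0 0 • LieAlgebra.SpecialLinear.singleSubSingle (0 : Fin 2) 1 (1 : ℂ) +
      M.val 0 1 • LieAlgebra.SpecialLinear.single (0 : Fin 2) 1 (by decide) (1 : ℂ) +
      M.val 1 0 • LieAlgebra.SpecialLinear.single (1 : Fin 2) 0 (by decide) (1 : ℂ) := by
    apply Subtype.ext
    show M.val = M.val 0 0 • (LieAlgebra.SpecialLinear.singleSubSingle (0 : Fin 2) 1 (1 : ℂ)).val +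
      M.val 0 1 • (LieAlgebra.SpecialLinear.single (0 : Fin 2) 1 (by decide) (1 : ℂ)).val +
      M.val 1 0 • (LieAlgebra.SpecialLinear.single (1 : Fin 2) 0 (by decide) (1 : ℂ)).val
    rw [LieAlgebra.SpecialLinear.val_singleSubSingle, LieAlgebra.SpecialLinear.val_single,
      LieAlgebra.SpecialLinear.val_single]
    ext i j
    fin_cases i <;> fin_cases j <;> simp [Matrix.single_apply, hM]
  conv_lhs => rw [key]
  rw [map_add, map_add, map_smul, map_smul, map_smul]
  rfl

theorem subalgebra_top (T : Subalgebra ℂ U2) (hE : elE ∈ T) (hF : elF ∈ T) (hH : elH ∈ T) :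
    ∀ z : U2, z ∈ T := by
  have hι : ∀ M, UniversalEnvelopingAlgebra.ι ℂ M ∈ T := by
    intro M
    rw [iota_eq]
    exact T.add_mem (T.add_mem (T.smul_mem hH _) (T.smul_mem hE _)) (T.smul_mem hF _)
  let ρ : LieAlgebra.SpecialLinear.sl (Fin 2) ℂ →ₗ⁅ℂ⁆ T :=
    { toFun := fun M => ⟨UniversalEnvelopingAlgebra.ι ℂ M, hι M⟩
      map_add' := fun M N => Subtype.ext (map_add _ M N)
      map_smul' := fun c M => Subtype.ext (map_smul _ c M)
      map_lie' := fun {M N} => Subtype.ext (by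
        show UniversalEnvelopingAlgebra.ι ℂ ⁅M, N⁆ = _
        rw [LieHom.map_lie, Ring.lie_def, Ring.lie_def]
        rfl) }
  have h : T.val.comp (UniversalEnvelopingAlgebra.lift ℂ ρ) = AlgHom.id ℂ U2 := by
    apply UniversalEnvelopingAlgebra.hom_ext
    apply LieHom.ext
    intro M
    show ((UniversalEnvelopingAlgebra.lift ℂ ρ) (UniversalEnvelopingAlgebra.ι ℂ M) : U2) =
      UniversalEnvelopingAlgebra.ι ℂ M
    rw [UniversalEnvelopingAlgebra.lift_ι_apply]
    rfl
  intro z
  have h1 := DFunLike.congr_fun h z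
  have h2 : (T.val ((UniversalEnvelopingAlgebra.lift ℂ ρ) z)) = z := h1
  rw [← h2]
  exact Subtype.property _

theorem iSup_Mk : ∀ z : U2, z ∈ ⨆ k, Mk k := by
  let S : Submodule ℂ U2 := ⨆ k, Mk k
  have hclose : ∀ x : U2, (∀ k z, z ∈ Mk k → x * z ∈ S) → ∀ s ∈ S, x * s ∈ S := by
    intro x hx s hs
    refine Submodule.iSup_induction Mk (motive := fun s => x * s ∈ S) hs (fun k z hz => hx k z hz)
      (by rw [mul_zero]; exact S.zero_mem) (fun a b ha hb => by rw [mul_add]; exact S.add_mem ha hb)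
  let T : Subalgebra ℂ U2 :=
    { carrier := {z | ∀ s ∈ S, z * s ∈ S}
      mul_mem' := fun {a b} ha hb s hs => by rw [mul_assoc]; exact ha _ (hb s hs)
      add_mem' := fun {a b} ha hb s hs => by rw [add_mul]; exact S.add_mem (ha s hs) (hb s hs)
      algebraMap_mem' := fun r s hs => by rw [← Algebra.smul_def]; exact S.smul_mem r hs }
  have hle : ∀ k, Mk k ≤ S := fun k => le_iSup Mk k
  have hT := subalgebra_top T
    (hclose elE (fun k z hz => hle _ (E_mul_Mk k z hz)))
    (hclose elF (fun k z hz => hle _ (F_mul_Mk k z hz)))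
    (hclose elH (fun k z hz => hle _ (H_mul_Mk k z hz)))
  have h1 : (1 : U2) ∈ S := hle 0 ((mem_Mk 0 1).2 ⟨1, by simp [gk]⟩)
  intro z
  have := hT z 1 h1
  rwa [mul_one] at this

theorem mem_M0_of_comm (z : U2) (hz : elH * z = z * elH) : ∃ P : ℂ[X][X], Phi P = z := by
  obtain ⟨f, hf, hfz⟩ := (Submodule.mem_iSup_iff_exists_finsupp Mk z).1 (iSup_Mk z)
  have h0 : z ∈ adH.eigenspace 0 := by
    rw [Module.End.mem_eigenspace_iff, zero_smul]
    show elH * z - z * elH = 0
    rw [hz, sub_self]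
  have h1 : f 0 ∈ adH.eigenspace 0 := by
    have := Mk_le 0 (hf 0)
    simpa using this
  have h2 : z - f 0 ∈ adH.eigenspace 0 := Submodule.sub_mem _ h0 h1
  have h3 : z - f 0 ∈ ⨆ μ : ℂ, ⨆ (_ : μ ≠ 0), adH.eigenspace μ := by
    have e1 : z - f 0 = ∑ i ∈ f.support.erase 0, f i := by
      rw [← hfz, Finsupp.sum]
      by_cases h : (0 : ℤ) ∈ f.support
      · rw [← Finset.add_sum_erase _ _ h]
        abel
      · rw [Finset.erase_eq_of_notMem h, Finsupp.notMem_support_iff.1 h, sub_zero]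
    rw [e1]
    apply Submodule.sum_mem
    intro i hi
    have hi0 : i ≠ 0 := (Finset.mem_erase.1 hi).1
    have hi' : (2 * i : ℂ) ≠ 0 := mul_ne_zero two_ne_zero (by exact_mod_cast hi0)
    exact Submodule.mem_iSup_of_mem (2 * i : ℂ) (Submodule.mem_iSup_of_mem hi' (Mk_le i (hf i)))
  have h4 := (adH.eigenspaces_iSupIndep 0)
  have h5 : z - f 0 = 0 := by
    have := h4.le_bot (⟨h2, h3⟩ : z - f 0 ∈ adH.eigenspace 0 ⊓ _)
    simpa using this
  obtain ⟨P, hP⟩ := (mem_Mk 0 (f 0)).1 (hf 0)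
  refine ⟨P, ?_⟩
  rw [sub_eq_zero.1 h5, ← hP]
  simp [gk]

/-! ### The principal series -/

/-- The operator `F`. -/
noncomputable def gam (c μ : ℂ) (k : ℤ) : ℂ := 2 * c - (μ + 2 * k) ^ 2 / 4 - (μ + 2 * k) / 2

/-- `E`. -/
def opE : Module.End ℂ (ℤ → ℂ) where
  toFun f k := f (k - 1)
  map_add' _ _ := rfl
  map_smul' _ _ := rfl

/-- `F`. -/
noncomputable def opF (c μ : ℂ) : Module.End ℂ (ℤ → ℂ) where
  toFun f k := gam c μ k * f (k + 1)
  map_add' f g := by
    funext k
    simp [mul_add]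
  map_smul' a f := by
    funext k
    simp only [Pi.smul_apply, smul_eq_mul, RingHom.id_apply]
    ring

/-- `H`. -/
noncomputable def opH (μ : ℂ) : Module.End ℂ (ℤ → ℂ) where
  toFun f k := (μ + 2 * k) * f k
  map_add' f g := by
    funext k
    simp [mul_add]
  map_smul' a f := by
    funext k
    simp only [Pi.smul_apply, smul_eq_mul, RingHom.id_apply]
    ring

theorem exists_rep (c μ : ℂ) : ∃ φ : U2 →ₐ[ℂ] Module.End ℂ (ℤ → ℂ),
    φ elE = opE ∧ φ elF = opF c μ ∧ φ elH = opH μ := by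
  apply exists_hom
  · apply LinearMap.ext
    intro f
    funext k
    simp only [LinearMap.sub_apply, Module.End.mul_apply, opE, opF, opH, LinearMap.coe_mk,
      AddHom.coe_mk, Pi.sub_apply, gam]
    rw [show k - 1 + 1 = k by ring, show k + 1 - 1 = k by ring]
    push_cast
    ring
  · apply LinearMap.ext
    intro f
    funext k
    simp only [LinearMap.sub_apply, Module.End.mul_apply, opE, opF, opH, LinearMap.coe_mk,
      AddHom.coe_mk, Pi.sub_apply, LinearMap.smul_apply, Pi.smul_apply, smul_eq_mul]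
    push_cast
    ring
  · apply LinearMap.ext
    intro f
    funext k
    simp only [LinearMap.sub_apply, Module.End.mul_apply, opE, opF, opH, LinearMap.coe_mk,
      AddHom.coe_mk, Pi.sub_apply, LinearMap.smul_apply, Pi.smul_apply, smul_eq_mul, gam,
      LinearMap.neg_apply, neg_smul, Pi.neg_apply]
    push_cast
    ring

theorem casimir_rep (c μ : ℂ) : casimir opE (opF c μ) (opH μ) = c • (1 : Module.End ℂ (ℤ → ℂ)) := by
  apply LinearMap.ext
  intro f
  funext k
  simp only [casimir, LinearMap.smul_apply, LinearMap.add_apply, Module.End.mul_apply, opE, opF,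
    opH, LinearMap.coe_mk, AddHom.coe_mk, Pi.smul_apply, Pi.add_apply, smul_eq_mul, gam,
    Module.End.one_apply]
  rw [show k - 1 + 1 = k by ring, show k + 1 - 1 = k by ring]
  push_cast
  ring

theorem aeval_scalar {A : Type*} [Ring A] [Algebra ℂ A] (c : ℂ) (q : ℂ[X]) :
    aeval (c • (1 : A)) q = q.eval c • (1 : A) := by
  rw [← Algebra.algebraMap_eq_smul_one, aeval_algebraMap_apply, Algebra.algebraMap_eq_smul_one]
  rfl

theorem Phi_rep (c μ : ℂ) (φ : U2 →ₐ[ℂ] Module.End ℂ (ℤ → ℂ)) (hE : φ elE = opE)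
    (hF : φ elF = opF c μ) (hH : φ elH = opH μ) (P : ℂ[X][X]) (f : ℤ → ℂ) (k : ℤ) :
    (φ (Phi P)) f k = (P.map (evalRingHom c)).eval (μ + 2 * k) * f k := by
  have hC : φ casU = c • (1 : Module.End ℂ (ℤ → ℂ)) := by
    unfold casU
    rw [map_casimir, hE, hF, hH, casimir_rep]
  induction P using Polynomial.induction_on' with
  | add P Q hP hQ =>
    rw [map_add, map_add, LinearMap.add_apply, Pi.add_apply, hP, hQ, Polynomial.map_add,
      eval_add, add_mul]
  | monomial i q =>
    have hpow : ∀ (i : ℕ) (g : ℤ → ℂ), ((opH μ) ^ i) g k = (μ + 2 * k) ^ i * g k := by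
      intro i
      induction i with
      | zero => intro g; simp
      | succ i ih =>
        intro g
        rw [pow_succ, Module.End.mul_apply, ih]
        show (μ + 2 * k) ^ i * ((μ + 2 * k) * g k) = _
        ring
    rw [Phi_monomial, map_mul, map_pow, hH, ← aeval_algHom_apply, hC, aeval_scalar]
    rw [Module.End.mul_apply, LinearMap.smul_apply, Module.End.one_apply, Pi.smul_apply, hpow,
      map_monomial, eval_monomial]
    simp only [coe_evalRingHom, smul_eq_mul]
    ring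

theorem const_of_periodic (p : ℂ[X]) (h : ∀ μ : ℂ, p.eval (μ - 2) = p.eval μ) :
    p = C (p.eval 0) := by
  apply eq_of_infinite_eval_eq
  apply Set.Infinite.mono (s := Set.range fun m : ℕ => (2 * m : ℂ))
  · rintro _ ⟨m, rfl⟩
    show p.eval (2 * m : ℂ) = (C (p.eval 0)).eval (2 * m : ℂ)
    rw [eval_C]
    induction m with
    | zero => simp
    | succ m ih =>
      rw [← ih, ← h]
      congr 1
      push_cast
      ring
  · apply Set.infinite_range_of_injective
    intro x y hxy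
    have : (2 * x : ℂ) = 2 * y := hxy
    have := mul_left_cancel₀ two_ne_zero this
    exact_mod_cast this

/-- An element of `U(sl(2))` which commutes with `H` and `E` is a polynomial in `C`. -/
theorem exists_poly_of_comm (z : U2) (h1 : elH * z = z * elH) (h2 : elE * z = z * elE) :
    ∃ p : ℂ[X], aeval casU p = z := by
  obtain ⟨P, rfl⟩ := mem_M0_of_comm z h1
  have key : ∀ c : ℂ, P.map (evalRingHom c) = C ((P.map (evalRingHom c)).eval 0) := by
    intro c
    apply const_of_periodic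
    intro μ
    obtain ⟨φ, hE, hF, hH⟩ := exists_rep c μ
    have e1 := congrArg φ h2
    rw [map_mul, map_mul, hE] at e1
    have e2 := congrFun (DFunLike.congr_fun e1 (fun _ => (1 : ℂ))) 0
    rw [Module.End.mul_apply, Module.End.mul_apply] at e2
    rw [Phi_rep c μ φ hE hF hH] at e2
    have e3 : (opE (φ (Phi P) fun _ => (1 : ℂ))) 0 = (φ (Phi P) fun _ => (1 : ℂ)) (0 - 1) := rfl
    rw [e3, Phi_rep c μ φ hE hF hH] at e2
    have e4 : (opE (fun _ => (1 : ℂ))) 0 = 1 := rfl
    rw [e4] at e2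
    simp only [mul_one] at e2
    have e5 : μ + 2 * ((0 - 1 : ℤ) : ℂ) = μ - 2 := by push_cast; ring
    have e6 : μ + 2 * ((0 : ℤ) : ℂ) = μ := by push_cast; ring
    rw [e5, e6] at e2
    exact e2
  have hP : P = C (P.coeff 0) := by
    ext i : 1
    rw [coeff_C]
    split_ifs with hi
    · rw [hi]
    · apply Polynomial.funext
      intro c
      have := congrArg (fun p => p.coeff i) (key c)
      simp only [coeff_map, coeff_C, hi, if_false] at this
      rw [eval_zero]
      exact this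
  refine ⟨P.coeff 0, ?_⟩
  conv_rhs => rw [hP]
  rw [Phi_C]

theorem aeval_casU_injective (p q : ℂ[X]) (h : aeval casU p = aeval casU q) : p = q := by
  apply Polynomial.funext
  intro c
  obtain ⟨φ, hE, hF, hH⟩ := exists_rep c 0
  have hC : φ casU = c • (1 : Module.End ℂ (ℤ → ℂ)) := by
    unfold casU
    rw [map_casimir, hE, hF, hH, casimir_rep]
  have e1 := congrArg φ h
  rw [← aeval_algHom_apply, ← aeval_algHom_apply, hC, aeval_scalar, aeval_scalar] at e1
  have e2 := congrFun (DFunLike.congr_fun e1 (fun _ => (1 : ℂ))) 0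
  simpa using e2

end Pool.Agent.Q127.SL
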