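import Pool.Agent.Q127.SL.Main2
import Mathlib.Algebra.Polynomial.Roots

/-!
# The state sum of a chord diagram in the Weyl algebra is the colouring model at `-2` colours
-/

set_option autoImplicit false
set_option linter.unusedSectionVars false

namespace Pool.Agent.Q127.SL

open Polynomial Finset

variable {n : ℕ}

theorem count_ofFn {κ : Type*} [DecidableEq κ] : ∀ (N : ℕ) (g : Fin N → κ) (c : κ),
    (List.ofFn g).count c = (Finset.univ.filter fun k => g k = c).card
  | 0, g, c => by simp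
  | N + 1, g, c => by
    rw [List.ofFn_succ, List.count_cons, count_ofFn N, Fin.card_filter_univ_succ]
    simp only [beq_iff_eq]
    by_cases h : g 0 = c
    · simp [h, Function.comp_def]
    · simp [h, Function.comp_def]

theorem card_lex : Fintype.card (Fin n ×ₗ Bool) = 2 * n := by
  have : Fintype.card (Fin n ×ₗ Bool) = Fintype.card (Fin n × Bool) := rfl
  rw [this, Fintype.card_prod]
  simp [mul_comm]

theorem count_word (D : ChordDiagram n) (c : Fin n) : (List.ofFn D.chord).count c = 2 := by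
  rw [count_ofFn, D.two]

theorem good_iff (D : ChordDiagram n) {m : ℕ} (f : Fin n ×ₗ Bool → Fin m) :
    Good f (List.ofFn D.chord) ↔ AllGood f := by
  constructor
  · intro h c
    apply h c
    rw [← List.count_pos_iff, count_word]
    norm_num
  · intro h c _
    exact h c

theorem sum_U (D : ChordDiagram n) (m : ℕ) :
    ((dbl (List.ofFn D.chord) []).map fun u => U m u).sum = 4 ^ n * YG m D.graph := by
  classical
  have h1 : ((dbl (List.ofFn D.chord) []).map fun u => U m u).sum =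
      ∑ f : Fin n ×ₗ Bool → Fin m,
        ((dbl (List.ofFn D.chord) []).map fun u => sgn (fun y => f (lab y)) u).sum := by
    rw [sum_list_sum]
    rfl
  rw [h1]
  unfold YG
  rw [Finset.mul_sum]
  apply Finset.sum_congr rfl
  intro f _
  by_cases hg : AllGood f
  · rw [if_pos hg, sum_dbl_sgn f _ _ ((good_iff D f).2 hg), List.length_ofFn, pow_mul]
    congr 1
    unfold sgn
    rw [T_flat f _ _ ((good_iff D f).2 hg), neg_one_pow_eq_sg2, neg_one_pow_eq_sg2, TT_graph]
  · rw [if_neg hg, sum_dbl_sgn_zero f _ _ (fun h => hg ((good_iff D f).1 h)), mul_zero]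

variable {R : Type*} [Ring R] [Algebra ℂ R]

theorem stateSum_weyl (a b : R) (hab : b * a - a * b = 1) (D : ChordDiagram n) (P : ℤ[X])
    (hP : ∀ m : ℕ, P.eval (m : ℤ) = YG m D.graph) :
    D.stateSum ((1 / 2 : ℂ) • (a * a)) (-(1 / 2 : ℂ) • (b * b)) ((1 / 2 : ℂ) • (a * b + b * a)) =
      ((-1 / 64 : ℂ) ^ n * ((P.eval (-2) : ℤ) : ℂ)) • (1 : R) := by
  classical
  have hlen : (flat (List.ofFn D.chord) []).length = 2 * (2 * n) := by
    rw [length_flat, List.length_ofFn]
  have hcl : Closed (flat (List.ofFn D.chord) []) :=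
    closed_flat _ (fun c => Or.inl (count_word D c))
  have hex : ∀ u : List ((Fin n ×ₗ Bool) ×ₗ Bool), ∃ Q : ℤ[X], u ∈ dbl (List.ofFn D.chord) [] →
      (∀ m : ℕ, 1 ≤ m → U m u = Q.eval (m : ℤ)) ∧
      (4 ^ (2 * n) : ℤ) • V a b u = ((2 ^ (2 * n) * Q.eval (-2) : ℤ) : R) := by
    intro u
    by_cases hu : u ∈ dbl (List.ofFn D.chord) []
    · have hp := dbl_perm _ _ u hu
      obtain ⟨Q, h1, h2⟩ := line_thm a b hab (2 * n) u (hcl.perm hp.symm)
        (by rw [hp.length_eq, hlen])
      rw [card_lex] at h1 h2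
      refine ⟨Q, fun _ => ⟨fun m hm => ?_, h2⟩⟩
      have hm' : (m : ℤ) ^ (2 * n) ≠ 0 := pow_ne_zero _ (by exact_mod_cast (by omega : m ≠ 0))
      exact mul_left_cancel₀ hm' (h1 m hm)
    · exact ⟨0, fun h => absurd h hu⟩
  choose Q hQ using hex
  set W := dbl (List.ofFn D.chord) [] with hW
  have hsum : (W.map Q).sum = C (4 ^ n) * P := by
    apply eq_of_infinite_eval_eq
    apply Set.Infinite.mono (s := Set.range fun m : ℕ => ((m + 1 : ℕ) : ℤ))
    · rintro _ ⟨m, rfl⟩
      simp only [Set.mem_setOf_eq]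
      rw [eval_mul, eval_C, hP, ← sum_U D (m + 1), ← coe_evalRingHom, map_list_sum, List.map_map]
      congr 1
      apply List.map_congr_left
      intro u hu
      exact ((hQ u hu).1 (m + 1) (by omega)).symm
    · apply Set.infinite_range_of_injective
      intro x y h
      have : ((x + 1 : ℕ) : ℤ) = ((y + 1 : ℕ) : ℤ) := h
      have := Nat.cast_injective this
      omega
  have hV : (4 ^ (2 * n) : ℤ) • (W.map fun u => V a b u).sum =
      ((2 ^ (2 * n) * (4 ^ n * P.eval (-2)) : ℤ) : R) := by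
    have e1 : (W.map Q).sum.eval (-2) = 4 ^ n * P.eval (-2) := by
      rw [hsum, eval_mul, eval_C]
    rw [← e1, ← coe_evalRingHom, map_list_sum, List.map_map, ← List.sum_map_mul_left,
      List.smul_sum, List.map_map]
    have e3 : ∀ l : List ℤ, ((l.sum : ℤ) : R) = (l.map fun z : ℤ => (z : R)).sum := by
      intro l
      induction l with
      | nil => simp
      | cons z l ih => simp [ih]
    rw [e3, List.map_map]
    congr 1
    apply List.map_congr_left
    intro u hu
    exact (hQ u hu).2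
  have hVq : (W.map fun u => V a b u).sum =
      ∑ s : Fin n ×ₗ Bool → Bool, qprod a b s (List.ofFn D.chord) [] := by
    simp only [← sum_dbl_prod]
    rw [sum_list_sum]
    rfl
  rw [hVq, sum_qprod] at hV
  set S := D.stateSum ((1 / 2 : ℂ) • (a * a)) (-(1 / 2 : ℂ) • (b * b))
    ((1 / 2 : ℂ) • (a * b + b * a))
  have h16 : ((4 : ℤ) ^ (2 * n)) • ((-64 : ℂ) ^ n • S) = ((16 : ℂ) ^ n * (-64 : ℂ) ^ n) • S := by
    rw [← Int.cast_smul_eq_zsmul ℂ, smul_smul]
    congr 2
    push_cast
    rw [pow_mul]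
    norm_num
  rw [h16] at hV
  have h17 : ((2 ^ (2 * n) * (4 ^ n * P.eval (-2)) : ℤ) : R) =
      ((16 : ℂ) ^ n * ((P.eval (-2) : ℤ) : ℂ)) • (1 : R) := by
    rw [← Algebra.algebraMap_eq_smul_one]
    have : ((16 : ℂ) ^ n * ((P.eval (-2) : ℤ) : ℂ)) =
        ((2 ^ (2 * n) * (4 ^ n * P.eval (-2)) : ℤ) : ℂ) := by
      push_cast
      rw [pow_mul, ← mul_assoc, ← mul_pow]
      norm_num
    rw [this, map_intCast]
  rw [h17] at hV
  have h0 : ((16 : ℂ) ^ n * (-64 : ℂ) ^ n) ≠ 0 := by
    apply mul_ne_zero <;> apply pow_ne_zero <;> norm_num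
  calc S = ((16 : ℂ) ^ n * (-64 : ℂ) ^ n)⁻¹ • (((16 : ℂ) ^ n * (-64 : ℂ) ^ n) • S) := by
        rw [smul_smul, inv_mul_cancel₀ h0, one_smul]
    _ = _ := by
        rw [hV, smul_smul]
        congr 1
        rw [mul_inv]
        have e1 : ((16 : ℂ) ^ n)⁻¹ * (16 : ℂ) ^ n = 1 := inv_mul_cancel₀ (pow_ne_zero _ (by norm_num))
        have e2 : ((-64 : ℂ) ^ n)⁻¹ = (-1 / 64 : ℂ) ^ n := by
          rw [← inv_pow]
          norm_num
        rw [e2]
        linear_combination ((-1 / 64 : ℂ) ^ n * ((P.eval (-2) : ℤ) : ℂ)) * e1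

end Pool.Agent.Q127.SL
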