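import Pool.Agent.Q127.SL.Center
import Pool.Agent.Q127.SL.Main3

/-!
# The `sl(2)` weight system takes its values in the polynomials in the Casimir element
-/

set_option autoImplicit false
set_option linter.unusedSectionVars false
set_option linter.unusedSimpArgs false

namespace Pool.Agent.Q127.SL

open Polynomial Finset

section leibniz

variable {R : Type*} [Ring R] [Algebra ℂ R]

theorem leibniz (x : R) : ∀ (N : ℕ) (g : Fin N → R),
    x * (List.ofFn g).prod - (List.ofFn g).prod * x =
      ∑ k : Fin N, (List.ofFn (Function.update g k (x * g k - g k * x))).prod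
  | 0, g => by simp
  | N + 1, g => by
    have ih := leibniz x N (fun i => g i.succ)
    rw [Fin.sum_univ_succ]
    have e0 : (List.ofFn (Function.update g 0 (x * g 0 - g 0 * x))).prod =
        (x * g 0 - g 0 * x) * (List.ofFn fun i : Fin N => g i.succ).prod := by
      rw [List.ofFn_succ, List.prod_cons, Function.update_self]
      congr 1
    have e1 : ∀ k : Fin N,
        (List.ofFn (Function.update g k.succ (x * g k.succ - g k.succ * x))).prod =
        g 0 * (List.ofFn (Function.update (fun i : Fin N => g i.succ) k
          (x * g k.succ - g k.succ * x))).prod := by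
      intro k
      rw [List.ofFn_succ, List.prod_cons]
      congr 1
      congr 1
      apply List.ofFn_inj.2
      funext i
      by_cases hi : i = k
      · subst hi
        simp
      · rw [Function.update_of_ne (fun h => hi (Fin.succ_injective _ h)), Function.update_of_ne hi]
    rw [e0, Finset.sum_congr rfl (fun k _ => e1 k), ← Finset.mul_sum, ← ih, List.ofFn_succ,
      List.prod_cons]
    noncomm_ring

theorem prod_update_sum {N : ℕ} (g : Fin N → R) (k : Fin N) (a : Fin 3 → ℂ) (v : Fin 3 → R) :
    (List.ofFn (Function.update g k (∑ s, a s • v s))).prod =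
      ∑ s, a s • (List.ofFn (Function.update g k (v s))).prod := by
  have h := fun w => (MultilinearMap.mkPiAlgebraFin_apply (R := ℂ) (A := R) (n := N) w)
  rw [← h, MultilinearMap.map_update_sum]
  apply Finset.sum_congr rfl
  intro s _
  rw [MultilinearMap.map_update_smul, h]

/-- The entries with separate choices for the first and the second ends. -/
noncomputable def entry (e f h : R) {n : ℕ} (D : ChordDiagram n) (t u : Fin n → Fin 3)
    (k : Fin (2 * n)) : R :=
  if ∀ j < k, D.chord j ≠ D.chord k then fst e f h (t (D.chord k)) else snd e f h (u (D.chord k))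

theorem sum_points {n : ℕ} (D : ChordDiagram n) (i j : Fin n → Fin (2 * n))
    (hij : ∀ c, i c < j c) (hp : ∀ c, (Finset.univ.filter fun k => D.chord k = c) = {i c, j c})
    (F : Fin (2 * n) → R) : ∑ k, F k = ∑ c, (F (i c) + F (j c)) := by
  rw [← Finset.sum_fiberwise Finset.univ D.chord F]
  apply Finset.sum_congr rfl
  intro c _
  rw [hp c, Finset.sum_pair (hij c).ne]

theorem stateSum_comm (e f h x : R) (a b : Fin 3 → Fin 3 → ℂ)
    (ha : ∀ t, x * fst e f h t - fst e f h t * x = ∑ s, a t s • fst e f h s)
    (hb : ∀ t, x * snd e f h t - snd e f h t * x = ∑ s, b t s • snd e f h s)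
    (hab : ∀ t s, a t s + b s t = 0) {n : ℕ} (D : ChordDiagram n) :
    x * D.stateSum e f h = D.stateSum e f h * x := by
  classical
  choose i j hij hp using fun c : Fin n => filter_pair (fun k => D.chord k = c) (D.two c)
  have hm := fun c => pair_mem (hp c)
  let W : (Fin n → Fin 3) → (Fin n → Fin 3) → R := fun t u =>
    (List.ofFn (entry e f h D t u)).prod
  have hi : ∀ c, ∀ j' < i c, D.chord j' ≠ D.chord (i c) := by
    intro c j' hj' he
    rw [(hm c).1] at he
    rcases (hm c).2.2 j' he with h1 | h1
    · exact absurd hj' (by rw [h1]; exact lt_irrefl _)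
    · exact absurd hj' (by rw [h1]; exact (hij c).le.not_gt)
  have hj : ∀ c, ¬ ∀ j' < j c, D.chord j' ≠ D.chord (j c) := by
    intro c hc
    exact hc (i c) (hij c) (by rw [(hm c).1, (hm c).2.1])
  have hnf : ∀ c k, D.chord k = c → k ≠ i c → ¬ ∀ j' < k, D.chord j' ≠ D.chord k := by
    intro c k hk hki
    rcases (hm c).2.2 k hk with h1 | h1
    · exact absurd h1 hki
    · rw [h1]; exact hj c
  have hff : ∀ c k, D.chord k = c → k ≠ j c → ∀ j' < k, D.chord j' ≠ D.chord k := by
    intro c k hk hki
    rcases (hm c).2.2 k hk with h1 | h1
    · rw [h1]; exact hi c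
    · exact absurd h1 hki
  have hu1 : ∀ t u c s, Function.update (entry e f h D t u) (i c) (fst e f h s) =
      entry e f h D (Function.update t c s) u := by
    intro t u c s
    funext k
    by_cases hk : k = i c
    · subst hk
      rw [Function.update_self]
      unfold entry
      rw [if_pos (hi c), (hm c).1, Function.update_self]
    · rw [Function.update_of_ne hk]
      unfold entry
      by_cases hf : ∀ j' < k, D.chord j' ≠ D.chord k
      · rw [if_pos hf, if_pos hf, Function.update_of_ne]
        intro hc
        exact hnf c k hc hk hf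
      · rw [if_neg hf, if_neg hf]
  have hu2 : ∀ t u c s, Function.update (entry e f h D t u) (j c) (snd e f h s) =
      entry e f h D t (Function.update u c s) := by
    intro t u c s
    funext k
    by_cases hk : k = j c
    · subst hk
      rw [Function.update_self]
      unfold entry
      rw [if_neg (hj c), (hm c).2.1, Function.update_self]
    · rw [Function.update_of_ne hk]
      unfold entry
      by_cases hf : ∀ j' < k, D.chord j' ≠ D.chord k
      · rw [if_pos hf, if_pos hf]
      · rw [if_neg hf, if_neg hf, Function.update_of_ne]
        intro hc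
        exact hf (hff c k hc hk)
  have hW : ∀ t u, x * W t u - W t u * x =
      ∑ c, ((∑ s, a (t c) s • W (Function.update t c s) u) +
        ∑ s, b (u c) s • W t (Function.update u c s)) := by
    intro t u
    show x * (List.ofFn (entry e f h D t u)).prod - (List.ofFn (entry e f h D t u)).prod * x = _
    rw [leibniz, sum_points D i j hij hp]
    apply Finset.sum_congr rfl
    intro c _
    congr 1
    · have h1 : entry e f h D t u (i c) = fst e f h (t c) := by
        unfold entry
        rw [if_pos (hi c), (hm c).1]
      rw [h1, ha, prod_update_sum]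
      apply Finset.sum_congr rfl
      intro s _
      rw [hu1]
    · have h1 : entry e f h D t u (j c) = snd e f h (u c) := by
        unfold entry
        rw [if_neg (hj c), (hm c).2.1]
      rw [h1, hb, prod_update_sum]
      apply Finset.sum_congr rfl
      intro s _
      rw [hu2]
  have hZ : D.stateSum e f h = ∑ t, W t t := rfl
  rw [← sub_eq_zero, hZ, Finset.mul_sum, Finset.sum_mul, ← Finset.sum_sub_distrib,
    Finset.sum_congr rfl (fun t _ => hW t t), Finset.sum_comm]
  apply Finset.sum_eq_zero
  intro c _
  rw [Finset.sum_add_distrib, add_eq_zero_iff_eq_neg, ← Finset.sum_product',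
    ← Finset.sum_product', ← Finset.sum_neg_distrib]
  refine Finset.sum_nbij' (fun p => (Function.update p.1 c p.2, p.1 c))
    (fun p => (Function.update p.1 c p.2, p.1 c)) ?_ ?_ ?_ ?_ ?_
  · intro p _; simp
  · intro p _; simp
  · intro p _; simp
  · intro p _; simp
  · rintro ⟨t, s⟩ _
    simp only [Function.update_self, Function.update_idem, Function.update_eq_self]
    rw [← neg_smul]
    congr 1
    have := hab (t c) s
    linear_combination this

end leibniz

theorem weight_comm_E {n : ℕ} (D : ChordDiagram n) : elE * D.weight = D.weight * elE := by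
  unfold ChordDiagram.weight
  apply stateSum_comm elE elF elH elE ![![0, 0, 0], ![0, 0, 1], ![-2, 0, 0]]
    ![![0, 0, 2], ![0, 0, 0], ![0, -1, 0]]
  · intro t
    rw [Fin.sum_univ_three]
    fin_cases t <;> simp [fst, relE1, relE2]
  · intro t
    rw [Fin.sum_univ_three]
    fin_cases t
    · simp [snd, relE1, relE2]
      module
    · simp [snd, relE1, relE2]
    · simp [snd, relE1, relE2]
      module
  · intro t s
    fin_cases t <;> fin_cases s <;> simp

theorem weight_comm_H {n : ℕ} (D : ChordDiagram n) : elH * D.weight = D.weight * elH := by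
  unfold ChordDiagram.weight
  apply stateSum_comm elE elF elH elH ![![2, 0, 0], ![0, -2, 0], ![0, 0, 0]]
    ![![-2, 0, 0], ![0, 2, 0], ![0, 0, 0]]
  · intro t
    rw [Fin.sum_univ_three]
    fin_cases t
    · simp [fst, relE1, relE2, relE3]
    · simp [fst, relE1, relE2, relE3]
    · simp [fst, relE1, relE2, relE3]
  · intro t
    rw [Fin.sum_univ_three]
    fin_cases t
    · simp [snd, relE1, relE2, relE3]
      module
    · simp [snd, relE1, relE2, relE3]
      module
    · simp [snd, relE1, relE2, relE3]
  · intro t s
    fin_cases t <;> fin_cases s <;> simp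

/-- The `sl(2)` weight system is a polynomial in the Casimir element, in exactly one way. -/
theorem existsUnique_poly {n : ℕ} (D : ChordDiagram n) :
    ∃! p : ℂ[X], aeval (casimir elE elF elH) p = D.weight := by
  obtain ⟨p, hp⟩ := exists_poly_of_comm D.weight (weight_comm_H D) (weight_comm_E D)
  refine ⟨p, hp, ?_⟩
  intro q hq
  exact aeval_casU_injective q p (hq.trans hp.symm)

end Pool.Agent.Q127.SL
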