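import Pool.Agent.Q127.SL.Line4

/-!
# Chord words and their doublings
-/

set_option autoImplicit false
set_option linter.unusedSectionVars false

namespace Pool.Agent.Q127.SL

open Polynomial Finset

theorem sum_flatMap' {α β M : Type*} [AddCommMonoid M] (g : α → List β) (h : β → M) :
    ∀ L : List α, ((L.flatMap g).map h).sum = (L.map fun x => ((g x).map h).sum).sum
  | [] => rfl
  | x :: L => by
    rw [List.flatMap_cons, List.map_append, List.sum_append, sum_flatMap' g h L, List.map_cons,
      List.sum_cons]

section defs

variable {κ : Type*} [LinearOrder κ]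

/-- The letter of the line number `b` of the chord `c`; `seen` decides the end. -/
def lt2 (c : κ) (b o : Bool) : (κ ×ₗ Bool) ×ₗ Bool := ltr (toLex (c, b)) o

/-- All doublings of a chord word. -/
def dbl : List κ → List κ → List (List ((κ ×ₗ Bool) ×ₗ Bool))
  | [], _ => [[]]
  | c :: w, seen => (dbl w (c :: seen)).flatMap fun u =>
      [lt2 c false (!decide (c ∈ seen)) :: lt2 c true (!decide (c ∈ seen)) :: u,
        lt2 c true (!decide (c ∈ seen)) :: lt2 c false (!decide (c ∈ seen)) :: u]

/-- The standard doubling. -/
def flat : List κ → List κ → List ((κ ×ₗ Bool) ×ₗ Bool)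
  | [], _ => []
  | c :: w, seen => lt2 c false (!decide (c ∈ seen)) :: lt2 c true (!decide (c ∈ seen)) ::
      flat w (c :: seen)

theorem length_flat : ∀ (w seen : List κ), (flat w seen).length = 2 * w.length
  | [], _ => rfl
  | c :: w, seen => by
    simp only [flat, List.length_cons, length_flat w (c :: seen)]
    ring

theorem dbl_perm : ∀ (w seen : List κ) (u : List ((κ ×ₗ Bool) ×ₗ Bool)), u ∈ dbl w seen →
    u.Perm (flat w seen)
  | [], _, u, h => by
    simp only [dbl, List.mem_singleton] at h
    subst h
    exact List.Perm.refl _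
  | c :: w, seen, u, h => by
    simp only [dbl, List.mem_flatMap] at h
    obtain ⟨v, hv, hu⟩ := h
    have ih := dbl_perm w (c :: seen) v hv
    simp only [List.mem_cons, List.not_mem_nil, or_false] at hu
    rcases hu with rfl | rfl
    · exact (ih.cons _).cons _
    · exact (List.Perm.swap _ _ _).trans ((ih.cons _).cons _)

theorem mem_flat : ∀ (w seen : List κ) (y : (κ ×ₗ Bool) ×ₗ Bool), y ∈ flat w seen ↔
    (if ori y then ((ofLex (lab y)).1 ∉ seen ∧ (ofLex (lab y)).1 ∈ w) else
      (if (ofLex (lab y)).1 ∈ seen then (ofLex (lab y)).1 ∈ w else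
        2 ≤ w.count (ofLex (lab y)).1))
  | [], seen, y => by simp [flat]
  | c :: w, seen, y => by
    have hy : y = lt2 (ofLex (lab y)).1 (ofLex (lab y)).2 (ori y) := rfl
    generalize (ofLex (lab y)).1 = d at hy
    generalize (ofLex (lab y)).2 = b at hy
    generalize ori y = o at hy
    subst hy
    have ih : lt2 d b o ∈ flat w (c :: seen) ↔ (if o then (d ∉ c :: seen ∧ d ∈ w) else
        (if d ∈ c :: seen then d ∈ w else 2 ≤ w.count d)) := mem_flat w (c :: seen) (lt2 d b o)
    have e3 : ∀ b' o', lt2 d b o = lt2 c b' o' ↔ d = c ∧ b = b' ∧ o = o' := by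
      intro b' o'
      constructor
      · intro h
        exact ⟨congrArg (fun y => (ofLex (lab y)).1) h, congrArg (fun y => (ofLex (lab y)).2) h,
          congrArg ori h⟩
      · rintro ⟨rfl, rfl, rfl⟩
        rfl
    simp only [flat, List.mem_cons, e3, ih, List.count_cons]
    by_cases hdc : d = c
    · subst hdc
      by_cases hs : d ∈ seen
      · cases o <;> cases b <;> simp [hs]
      · cases o <;> cases b <;> simp [hs, List.one_le_count_iff]
    · cases o <;> simp [hdc, Ne.symm hdc]

theorem nodup_flat : ∀ (w seen : List κ), (∀ c ∈ seen, w.count c ≤ 1) → (∀ c, w.count c ≤ 2) →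
    (flat w seen).Nodup
  | [], _, _, _ => List.nodup_nil
  | c :: w, seen, h1, h2 => by
    have ih := nodup_flat w (c :: seen) (by
      intro d hd
      rcases List.mem_cons.1 hd with rfl | hd
      · have := h2 d
        rw [List.count_cons_self] at this
        omega
      · have := h1 d hd
        rw [List.count_cons] at this
        omega) (by
      intro d
      have := h2 d
      rw [List.count_cons] at this
      omega)
    have hn : ∀ b, lt2 c b (!decide (c ∈ seen)) ∉ flat w (c :: seen) := by
      intro b
      rw [mem_flat]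
      have e1 : (ofLex (lab (lt2 c b (!decide (c ∈ seen))))).1 = c := rfl
      have e2 : ori (lt2 c b (!decide (c ∈ seen))) = !decide (c ∈ seen) := rfl
      rw [e1, e2]
      by_cases hs : c ∈ seen
      · have := h1 c hs
        rw [List.count_cons_self] at this
        have h0 : w.count c = 0 := by omega
        simp [hs, List.count_eq_zero.1 h0]
      · simp [hs]
    rw [flat, List.nodup_cons, List.nodup_cons]
    refine ⟨?_, hn true, ih⟩
    rw [List.mem_cons, not_or]
    refine ⟨?_, hn false⟩
    intro h
    have := congrArg (fun y => (ofLex (lab y)).2) h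
    exact Bool.noConfusion (this : false = true)

theorem closed_flat (w : List κ) (h : ∀ c, w.count c = 2 ∨ w.count c = 0) :
    Closed (flat w []) := by
  refine ⟨nodup_flat w [] (by simp) (fun c => by rcases h c with h | h <;> omega), ?_⟩
  intro y hy
  rw [mem_flat] at hy ⊢
  simp only [lab_bar, ori_bar, List.not_mem_nil, not_false_iff, true_and, if_false] at hy ⊢
  have h1 := h (ofLex (lab y)).1
  cases ho : ori y
  · simp only [ho, Bool.false_eq_true, if_false, Bool.not_false, if_true] at hy ⊢
    exact List.one_le_count_iff.1 (by omega)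
  · simp only [ho, Bool.not_true, Bool.false_eq_true, if_false, if_true] at hy ⊢
    have := List.one_le_count_iff.2 hy
    omega

end defs

section weyl

variable {κ R : Type*} [LinearOrder κ] [Ring R]

/-- Twice the symmetrised product at an end of the chord `c`. -/
def quad (a b : R) (s : κ ×ₗ Bool → Bool) (c : κ) (o : Bool) : R :=
  val a b s (lt2 c false o) * val a b s (lt2 c true o) +
    val a b s (lt2 c true o) * val a b s (lt2 c false o)

/-- The product over a chord word. -/
def qprod (a b : R) (s : κ ×ₗ Bool → Bool) : List κ → List κ → R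
  | [], _ => 1
  | c :: w, seen => quad a b s c (!decide (c ∈ seen)) * qprod a b s w (c :: seen)

theorem sum_dbl_prod (a b : R) (s : κ ×ₗ Bool → Bool) : ∀ (w seen : List κ),
    ((dbl w seen).map fun u => (u.map (val a b s)).prod).sum = qprod a b s w seen
  | [], _ => by simp [dbl, qprod]
  | c :: w, seen => by
    rw [qprod, ← sum_dbl_prod a b s w (c :: seen), ← List.sum_map_mul_left, dbl,
      sum_flatMap']
    congr 1
    apply List.map_congr_left
    intro u _
    simp only [List.map_cons, List.map_nil, List.prod_cons, List.sum_cons, List.sum_nil, quad]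
    noncomm_ring

end weyl

section sign

variable {κ : Type*} [LinearOrder κ] {m : ℕ}

/-- The number of coincidences of colours of two chords. -/
def hh (f : κ ×ₗ Bool → Fin m) (c d : κ) : ℕ :=
  ∑ a : Bool, ∑ b : Bool, if f (toLex (c, a)) = f (toLex (d, b)) then 1 else 0

/-- Increasing pairs of letters, weighted by the coincidences. -/
def TT (f : κ ×ₗ Bool → Fin m) : List κ → ℕ
  | [] => 0
  | c :: w => (w.map fun d => if c < d then hh f c d else 0).sum + TT f w

/-- The two colours of every chord of the word are different. -/
def Good (f : κ ×ₗ Bool → Fin m) (w : List κ) : Prop :=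
  ∀ c ∈ w, f (toLex (c, false)) ≠ f (toLex (c, true))

theorem countP_flat (f : κ ×ₗ Bool → Fin m) (c : κ) (o : Bool)
    (hc : f (toLex (c, false)) ≠ f (toLex (c, true))) : ∀ (w seen : List κ), c ∈ seen →
    (flat w seen).countP (fun z => lt2 c false o < z ∧ f (lab z) = f (lab (lt2 c false o))) +
    (flat w seen).countP (fun z => lt2 c true o < z ∧ f (lab z) = f (lab (lt2 c true o))) =
      (w.map fun d => if c < d then hh f c d else 0).sum
  | [], _, _ => by simp [flat]
  | d :: w, seen, hs => by
    have ih := countP_flat f c o hc w (d :: seen) (List.mem_cons_of_mem _ hs)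
    rw [List.map_cons, List.sum_cons, ← ih]
    simp only [flat, List.countP_cons]
    have key : ∀ a b o', (lt2 c a o < lt2 d b o' ∧
        f (lab (lt2 d b o')) = f (lab (lt2 c a o))) ↔
        ((c < d ∨ c = d ∧ (a < b ∨ a = b ∧ o < o')) ∧
          f (toLex (c, a)) = f (toLex (d, b))) := by
      intro a b o'
      have e1 : lt2 c a o < lt2 d b o' ↔ (c < d ∨ c = d ∧ (a < b ∨ a = b ∧ o < o')) := by
        unfold lt2 ltr
        rw [Prod.Lex.toLex_lt_toLex]
        simp only [Prod.Lex.toLex_lt_toLex, EmbeddingLike.apply_eq_iff_eq, Prod.mk.injEq]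
        constructor
        · rintro ((h | h) | h)
          · exact Or.inl h
          · exact Or.inr ⟨h.1, Or.inl h.2⟩
          · exact Or.inr ⟨h.1.1, Or.inr ⟨h.1.2, h.2⟩⟩
        · rintro (h | ⟨h1, h2 | h2⟩)
          · exact Or.inl (Or.inl h)
          · exact Or.inl (Or.inr ⟨h1, h2⟩)
          · exact Or.inr ⟨⟨h1, h2.1⟩, h2.2⟩
      rw [e1]
      have e2 : lab (lt2 d b o') = toLex (d, b) := rfl
      have e3 : lab (lt2 c a o) = toLex (c, a) := rfl
      rw [e2, e3]
      constructor
      · rintro ⟨h, h'⟩
        exact ⟨h, h'.symm⟩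
      · rintro ⟨h, h'⟩
        exact ⟨h, h'.symm⟩
    simp only [key]
    rcases lt_trichotomy c d with h | h | h
    · have hcd : c ≠ d := h.ne
      simp only [h, hcd, true_or, true_and, if_true, hh, Fintype.sum_bool]
      simp only [decide_eq_true_eq]
      ring
    · subst h
      have hs' : (!decide (c ∈ seen)) = false := by simp [hs]
      rw [hs']
      have ho : ¬ (o < false) := by cases o <;> decide
      simp [hc, Ne.symm hc, ho]
    · have hcd : c ≠ d := h.ne'
      simp [hcd, not_lt.2 h.le]

theorem T_flat (f : κ ×ₗ Bool → Fin m) : ∀ (w seen : List κ), Good f w →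
    T (fun y => f (lab y)) (flat w seen) = TT f w
  | [], _, _ => rfl
  | c :: w, seen, h => by
    have ih := T_flat f w (c :: seen) (fun d hd => h d (List.mem_cons_of_mem _ hd))
    have hc := h c List.mem_cons_self
    rw [TT, ← countP_flat f c (!decide (c ∈ seen)) hc w (c :: seen) List.mem_cons_self, ← ih,
      flat, T, T, List.countP_cons]
    have : ¬ (f (lab (lt2 c true (!decide (c ∈ seen)))) =
        f (lab (lt2 c false (!decide (c ∈ seen))))) := fun h => hc h.symm
    simp only [this, and_false, decide_false, Bool.false_eq_true, if_false]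
    ring

theorem sum_dbl_sgn (f : κ ×ₗ Bool → Fin m) : ∀ (w seen : List κ), Good f w →
    ((dbl w seen).map fun u => sgn (fun y => f (lab y)) u).sum =
      2 ^ w.length * sgn (fun y => f (lab y)) (flat w seen)
  | [], _, _ => by simp [dbl, flat]
  | c :: w, seen, h => by
    have ih := sum_dbl_sgn f w (c :: seen) (fun d hd => h d (List.mem_cons_of_mem _ hd))
    have hc := h c List.mem_cons_self
    rw [dbl, sum_flatMap', flat, List.length_cons]
    set x := lt2 c false (!decide (c ∈ seen))
    set y := lt2 c true (!decide (c ∈ seen))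
    have hxy : (fun y : (κ ×ₗ Bool) ×ₗ Bool => f (lab y)) x ≠ (fun y => f (lab y)) y := hc
    have e1 : ((dbl w (c :: seen)).map fun u =>
        ([x :: y :: u, y :: x :: u].map fun u => sgn (fun y => f (lab y)) u).sum) =
        (dbl w (c :: seen)).map fun u => (2 *
          ((-1) ^ ((y :: flat w (c :: seen)).countP (fun z => x < z ∧ f (lab z) = f (lab x))) *
          (-1) ^ ((flat w (c :: seen)).countP (fun z => y < z ∧ f (lab z) = f (lab y))))) *
          sgn (fun y => f (lab y)) u := by
      apply List.map_congr_left
      intro u hu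
      have hp := dbl_perm w (c :: seen) u hu
      simp only [List.map_cons, List.map_nil, List.sum_cons, List.sum_nil]
      rw [← sgn_swap_of_ne (fun y => f (lab y)) x y u hxy, sgn_cons, sgn_cons]
      rw [countP_perm_eq (fun y => f (lab y)) x (hp.cons y),
        countP_perm_eq (fun y => f (lab y)) y hp]
      ring
    rw [e1, List.sum_map_mul_left, ih, sgn_cons, sgn_cons, pow_succ]
    ring

theorem sum_dbl_sgn_zero (f : κ ×ₗ Bool → Fin m) : ∀ (w seen : List κ), ¬ Good f w →
    ((dbl w seen).map fun u => sgn (fun y => f (lab y)) u).sum = 0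
  | [], _, h => absurd (fun c hc => by simp at hc) h
  | c :: w, seen, h => by
    rw [dbl, sum_flatMap']
    set x := lt2 c false (!decide (c ∈ seen))
    set y := lt2 c true (!decide (c ∈ seen))
    have hne : x ≠ y := by
      intro h
      have := congrArg (fun y => (ofLex (lab y)).2) h
      exact Bool.noConfusion (this : false = true)
    by_cases hc : f (toLex (c, false)) = f (toLex (c, true))
    · apply List.sum_eq_zero
      intro z hz
      obtain ⟨u, _, rfl⟩ := List.mem_map.1 hz
      simp only [List.map_cons, List.map_nil, List.sum_cons, List.sum_nil]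
      rw [sgn_swap_of_eq (fun y => f (lab y)) x y u hc hne]
      ring
    · have hw : ¬ Good f w := by
        intro h'
        apply h
        intro d hd
        rcases List.mem_cons.1 hd with rfl | hd
        · exact hc
        · exact h' d hd
      have ih := sum_dbl_sgn_zero f w (c :: seen) hw
      have hxy : (fun y : (κ ×ₗ Bool) ×ₗ Bool => f (lab y)) x ≠ (fun y => f (lab y)) y := hc
      have e1 : ((dbl w (c :: seen)).map fun u =>
        ([x :: y :: u, y :: x :: u].map fun u => sgn (fun y => f (lab y)) u).sum) =
        (dbl w (c :: seen)).map fun u => (2 *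
          ((-1) ^ ((y :: flat w (c :: seen)).countP (fun z => x < z ∧ f (lab z) = f (lab x))) *
          (-1) ^ ((flat w (c :: seen)).countP (fun z => y < z ∧ f (lab z) = f (lab y))))) *
          sgn (fun y => f (lab y)) u := by
        apply List.map_congr_left
        intro u hu
        have hp := dbl_perm w (c :: seen) u hu
        simp only [List.map_cons, List.map_nil, List.sum_cons, List.sum_nil]
        rw [← sgn_swap_of_ne (fun y => f (lab y)) x y u hxy, sgn_cons, sgn_cons]
        rw [countP_perm_eq (fun y => f (lab y)) x (hp.cons y),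
          countP_perm_eq (fun y => f (lab y)) y hp]
        ring
      rw [e1, List.sum_map_mul_left, ih, mul_zero]

end sign

end Pool.Agent.Q127.SL
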