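import Mathlib.Combinatorics.SimpleGraph.Maps
import Mathlib.Algebra.Lie.Classical
import Mathlib.Algebra.Lie.UniversalEnveloping
import Mathlib.Data.Complex.Basic
import Mathlib.LinearAlgebra.Matrix.Notation
import Mathlib.Algebra.Polynomial.AlgebraMap
import Mathlib.Tactic

/-!
# The `sl(2)` weight system of chord diagrams and 4-invariants of graphs: definitions
-/

set_option autoImplicit false

namespace Pool.Agent.Q127.SL

open Polynomial

/-! ### Graphs -/

/-- `G'_{ab}`: the adjacency of `a` and `b` is toggled. -/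
def toggle {V : Type*} (G : SimpleGraph V) (a b : V) : SimpleGraph V where
  Adj u v := u ≠ v ∧ Xor (G.Adj u v) ((u = a ∧ v = b) ∨ (u = b ∧ v = a))
  symm := ⟨fun u v h => ⟨h.1.symm, by
    have h2 := h.2
    rw [G.adj_comm v u]
    have : ((v = a ∧ u = b) ∨ (v = b ∧ u = a)) ↔ ((u = a ∧ v = b) ∨ (u = b ∧ v = a)) := by tauto
    rwa [this]⟩⟩
  loopless := ⟨fun _ h => h.1 rfl⟩

/-- `\tilde G_{ab}`: the adjacency of `a` with every vertex `v ≠ a` adjacent to `b` is toggled. -/
def slide {V : Type*} (G : SimpleGraph V) (a b : V) : SimpleGraph V where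
  Adj u v := u ≠ v ∧ Xor (G.Adj u v) ((u = a ∧ G.Adj v b) ∨ (v = a ∧ G.Adj u b))
  symm := ⟨fun u v h => ⟨h.1.symm, by
    have h2 := h.2
    rw [G.adj_comm v u]
    have : ((v = a ∧ G.Adj u b) ∨ (u = a ∧ G.Adj v b)) ↔
      ((u = a ∧ G.Adj v b) ∨ (v = a ∧ G.Adj u b)) := by tauto
    rwa [this]⟩⟩
  loopless := ⟨fun _ h => h.1 rfl⟩

/-- A 4-invariant of graphs: a function of finite simple graphs, invariant under isomorphism, with
the 4-term relation for every graph and every ordered pair of distinct vertices. -/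
structure IsFourInvariant (ξ : ∀ n : ℕ, SimpleGraph (Fin n) → ℂ) : Prop where
  iso : ∀ (n : ℕ) (G H : SimpleGraph (Fin n)), Nonempty (G ≃g H) → ξ n G = ξ n H
  four_term : ∀ (n : ℕ) (G : SimpleGraph (Fin n)) (a b : Fin n), a ≠ b →
    ξ n G - ξ n (toggle G a b) = ξ n (slide G a b) - ξ n (toggle (slide G a b) a b)

/-! ### Chord diagrams -/

/-- A chord diagram of order `n` with numbered chords, cut open at a point of the circle: `chord k`
is the chord which ends at the `k`-th of the `2 n` points, and every chord has two ends. -/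
structure ChordDiagram (n : ℕ) where
  /-- The chord at each of the `2 n` points. -/
  chord : Fin (2 * n) → Fin n
  two : ∀ c : Fin n, (Finset.univ.filter fun k => chord k = c).card = 2

/-- The intersection graph: two chords are adjacent if their ends alternate. -/
def ChordDiagram.graph {n : ℕ} (D : ChordDiagram n) : SimpleGraph (Fin n) where
  Adj c d := c ≠ d ∧ ∃ i j k l : Fin (2 * n), i < j ∧ j < k ∧ k < l ∧
    ((D.chord i = c ∧ D.chord j = d ∧ D.chord k = c ∧ D.chord l = d) ∨
      (D.chord i = d ∧ D.chord j = c ∧ D.chord k = d ∧ D.chord l = c))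
  symm := ⟨fun _ _ h => ⟨h.1.symm, by
    obtain ⟨i, j, k, l, h1, h2, h3, h4⟩ := h.2
    exact ⟨i, j, k, l, h1, h2, h3, h4.symm⟩⟩⟩
  loopless := ⟨fun _ h => h.1 rfl⟩

/-! ### The state sum -/

/-- The Casimir element `C = (EF + FE + H^2/2) / 4`. -/
noncomputable def casimir {R : Type*} [Ring R] [Algebra ℂ R] (e f h : R) : R :=
  (1 / 4 : ℂ) • (e * f + f * e + (1 / 2 : ℂ) • (h * h))

/-- The first factors of the Casimir tensor
`C = E ⊗ (F/4) + F ⊗ (E/4) + H ⊗ (H/8)`. -/
def fst {R : Type*} (e f h : R) : Fin 3 → R := ![e, f, h]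

/-- The second factors of the Casimir tensor. -/
noncomputable def snd {R : Type*} [Ring R] [Algebra ℂ R] (e f h : R) : Fin 3 → R :=
  ![(1 / 4 : ℂ) • f, (1 / 4 : ℂ) • e, (1 / 8 : ℂ) • h]

/-- The state sum of a chord diagram: a term of the Casimir tensor is chosen for every chord, its
first factor is put at the first end of the chord and its second factor at the second end, the
product is taken along the circle, and everything is summed over all choices. -/
noncomputable def ChordDiagram.stateSum {R : Type*} [Ring R] [Algebra ℂ R] (e f h : R) {n : ℕ}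
    (D : ChordDiagram n) : R :=
  ∑ t : Fin n → Fin 3, (List.ofFn fun k : Fin (2 * n) =>
    if ∀ j < k, D.chord j ≠ D.chord k then fst e f h (t (D.chord k))
      else snd e f h (t (D.chord k))).prod

/-! ### The Lie algebra `sl(2)` -/

/-- The enveloping algebra of the Lie algebra `sl(2, ℂ)` of the matrices of trace `0`. -/
abbrev U2 : Type := UniversalEnvelopingAlgebra ℂ (LieAlgebra.SpecialLinear.sl (Fin 2) ℂ)

/-- `E = (0 1; 0 0)`. -/
noncomputable def elE : U2 := UniversalEnvelopingAlgebra.ι ℂ
  (LieAlgebra.SpecialLinear.single (0 : Fin 2) 1 (by decide) (1 : ℂ))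

/-- `F = (0 0; 1 0)`. -/
noncomputable def elF : U2 := UniversalEnvelopingAlgebra.ι ℂ
  (LieAlgebra.SpecialLinear.single (1 : Fin 2) 0 (by decide) (1 : ℂ))

/-- `H = (1 0; 0 -1)`. -/
noncomputable def elH : U2 := UniversalEnvelopingAlgebra.ι ℂ
  (LieAlgebra.SpecialLinear.singleSubSingle (0 : Fin 2) 1 (1 : ℂ))

/-- The `sl(2)` weight system on chord diagrams, with values in the enveloping algebra. -/
noncomputable def ChordDiagram.weight {n : ℕ} (D : ChordDiagram n) : U2 := D.stateSum elE elF elH

end Pool.Agent.Q127.SL
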