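import Pool.Agent.Q127.SL.Defs
import Pool.Agent.Q127.SL.Chord
import Mathlib.Data.ZMod.Basic
import Mathlib.RingTheory.Polynomial.Pochhammer
import Mathlib.Data.Fintype.CardEmbedding
import Mathlib.Data.Setoid.Basic

/-!
# The colouring model of graphs
-/

set_option autoImplicit false
set_option linter.unusedSectionVars false

namespace Pool.Agent.Q127.SL

open Polynomial Finset

/-! ### Polynomial continuation in the number of colours -/

theorem card_ker {V : Type*} [Fintype V] [DecidableEq V] (m : ℕ) (s : Setoid V) :
    Nat.card {f : V → Fin m // Setoid.ker f = s} = m.descFactorial (Nat.card (Quotient s)) := by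
  classical
  let e : {f : V → Fin m // Setoid.ker f = s} ≃ (Quotient s ↪ Fin m) :=
    { toFun := fun f => ⟨Quotient.lift f.1 (fun a b h => by
          have h' : (Setoid.ker f.1) a b := by rw [f.2]; exact h
          exact h'), by
          intro x y
          induction x using Quotient.inductionOn with | _ x => ?_
          induction y using Quotient.inductionOn with | _ y => ?_
          intro h
          apply Quotient.sound
          have h' : (Setoid.ker f.1) x y := h
          rw [f.2] at h'
          exact h'⟩
      invFun := fun g => ⟨fun x => g (Quotient.mk s x), by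
          ext x y
          constructor
          · intro h
            exact Quotient.exact (g.injective h)
          · intro h
            exact congrArg g (Quotient.sound h)⟩
      left_inv := fun f => by
        apply Subtype.ext
        rfl
      right_inv := fun g => by
        ext x
        induction x using Quotient.inductionOn with | _ x => rfl }
  rw [Nat.card_congr e, Nat.card_eq_fintype_card, Fintype.card_embedding_eq, Fintype.card_fin,
    Nat.card_eq_fintype_card]

theorem exists_poly {V : Type*} [Fintype V] [DecidableEq V] (g : Setoid V → ℤ) :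
    ∃ P : ℤ[X], ∀ m : ℕ, P.eval (m : ℤ) = ∑ f : V → Fin m, g (Setoid.ker f) := by
  classical
  have : Finite (Setoid V) :=
    Finite.of_injective (fun s : Setoid V => (s.r : V → V → Prop)) (fun s t h => by
      ext x y
      exact iff_of_eq (congrFun (congrFun h x) y))
  have : Fintype (Setoid V) := Fintype.ofFinite _
  refine ⟨∑ s : Setoid V, C (g s) * descPochhammer ℤ (Nat.card (Quotient s)), fun m => ?_⟩
  rw [eval_finsetSum, ← Finset.sum_fiberwise Finset.univ (fun f : V → Fin m => Setoid.ker f)]
  apply Finset.sum_congr rfl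
  intro s _
  rw [eval_mul, eval_C, descPochhammer_eval_eq_descFactorial, ← card_ker m s]
  rw [Finset.sum_congr rfl (g := fun _ => g s) (fun f hf => by rw [(Finset.mem_filter.1 hf).2]),
    Finset.sum_const, nsmul_eq_mul, mul_comm, Nat.card_eq_fintype_card, Fintype.card_subtype]

/-! ### Sums over pairs -/

variable {κ : Type*} [Fintype κ] [LinearOrder κ]

/-- The character of `ZMod 2`. -/
def sg2 (x : ZMod 2) : ℤ := if x = 0 then 1 else -1

theorem sg2_add : ∀ x y : ZMod 2, sg2 (x + y) = sg2 x * sg2 y := by decide

theorem zmod2_cases : ∀ x : ZMod 2, x = 0 ∨ x = 1 := by decide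

theorem zmod2_self (x : ZMod 2) : x + x = 0 := by
  rcases zmod2_cases x with rfl | rfl <;> decide

theorem neg_one_pow_eq_sg2 (n : ℕ) : (-1 : ℤ) ^ n = sg2 (n : ZMod 2) := by
  induction n with
  | zero => decide
  | succ n ih => rw [pow_succ, ih, Nat.cast_succ, sg2_add]; rfl

theorem star_sum (x : κ) (g : κ → ZMod 2) :
    (∑ c : κ, ∑ d : κ, if c < d then (if c = x then g d else 0) + (if d = x then g c else 0)
      else 0) = ∑ v : κ, if v ≠ x then g v else 0 := by
  have h1 : ∀ c d : κ, (if c < d then (if c = x then g d else 0) + (if d = x then g c else 0)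
      else 0) = (if c = x then (if x < d then g d else 0) else 0) +
        (if d = x then (if c < x then g c else 0) else 0) := by
    intro c d
    split_ifs <;> simp_all
  simp only [h1, Finset.sum_add_distrib]
  rw [Finset.sum_comm (f := fun c d => if c = x then (if x < d then g d else 0) else 0)]
  simp only [Finset.sum_ite_eq', Finset.mem_univ, if_true]
  rw [← Finset.sum_add_distrib]
  apply Finset.sum_congr rfl
  intro v _
  rcases lt_trichotomy v x with h | h | h
  · simp [h, h.ne, not_lt.2 h.le]
  · simp [h]
  · simp [h, h.ne', not_lt.2 h.le]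

/-! ### The model -/

variable {m : ℕ}

/-- The exponent, as a number. -/
noncomputable def qN (G : SimpleGraph κ) (f : κ ×ₗ Bool → Fin m) : ℕ := by
  classical exact ∑ c : κ, ∑ d : κ, if c < d then (if G.Adj c d then hh f c d else 0) else 0

theorem hh_comm (f : κ ×ₗ Bool → Fin m) (c d : κ) : hh f c d = hh f d c := by
  unfold hh
  rw [Finset.sum_comm]
  apply Finset.sum_congr rfl
  intro a _
  apply Finset.sum_congr rfl
  intro b _
  simp only [eq_comm]

theorem two_qN (G : SimpleGraph κ) [DecidableRel G.Adj] (f : κ ×ₗ Bool → Fin m) :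
    2 * qN G f = ∑ c : κ, ∑ d : κ, if G.Adj c d then hh f c d else 0 := by
  classical
  have h1 : ∀ c d : κ, (if G.Adj c d then hh f c d else 0) =
      (if c < d then (if G.Adj c d then hh f c d else 0) else 0) +
      (if d < c then (if G.Adj d c then hh f d c else 0) else 0) := by
    intro c d
    rw [hh_comm f d c, if_congr (G.adj_comm d c) rfl rfl]
    rcases lt_trichotomy c d with h | h | h
    · simp [h, not_lt.2 h.le]
    · subst h; simp
    · simp [h, not_lt.2 h.le]
  rw [Finset.sum_congr rfl (fun c _ => Finset.sum_congr rfl (fun d _ => h1 c d))]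
  simp only [Finset.sum_add_distrib]
  rw [Finset.sum_comm (f := fun c d => if d < c then (if G.Adj d c then hh f d c else 0) else 0)]
  rw [two_mul]
  unfold qN
  congr 1 <;>
  · apply Finset.sum_congr rfl
    intro c _
    apply Finset.sum_congr rfl
    intro d _
    congr

theorem qN_iso (G H : SimpleGraph κ) (e : G ≃g H) (f : κ ×ₗ Bool → Fin m) :
    qN G (fun y => f (toLex (e (ofLex y).1, (ofLex y).2))) = qN H f := by
  classical
  have h1 := two_qN G (fun y => f (toLex (e (ofLex y).1, (ofLex y).2)))
  have h2 := two_qN H f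
  have h3 : (∑ c : κ, ∑ d : κ, if G.Adj c d then
      hh (fun y => f (toLex (e (ofLex y).1, (ofLex y).2))) c d else 0) =
      ∑ c : κ, ∑ d : κ, if H.Adj c d then hh f c d else 0 := by
    rw [← Equiv.sum_comp e.toEquiv (fun c => ∑ d : κ, if H.Adj c d then hh f c d else 0)]
    apply Finset.sum_congr rfl
    intro c _
    rw [← Equiv.sum_comp e.toEquiv (fun d => if H.Adj (e.toEquiv c) d then
      hh f (e.toEquiv c) d else 0)]
    apply Finset.sum_congr rfl
    intro d _
    have : H.Adj (e.toEquiv c) (e.toEquiv d) ↔ G.Adj c d := e.map_rel_iff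
    rw [if_congr this rfl rfl]
    rfl
  rw [h3] at h1
  omega

/-- All chords have two different colours. -/
def AllGood (f : κ ×ₗ Bool → Fin m) : Prop := ∀ c, f (toLex (c, false)) ≠ f (toLex (c, true))

/-- The state sum of a graph with `m` colours. -/
noncomputable def YG (m : ℕ) (G : SimpleGraph κ) : ℤ := by
  classical exact ∑ f : κ ×ₗ Bool → Fin m, if AllGood f then (-1) ^ qN G f else 0

theorem exists_YG_poly (G : SimpleGraph κ) : ∃ P : ℤ[X], ∀ m : ℕ, P.eval (m : ℤ) = YG m G := by
  classical
  obtain ⟨P, hP⟩ := exists_poly (V := κ ×ₗ Bool) (fun s =>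
    if ∀ c : κ, ¬ s (toLex (c, false)) (toLex (c, true)) then
      (-1) ^ (∑ c : κ, ∑ d : κ, if c < d then (if G.Adj c d then
        (∑ a : Bool, ∑ b : Bool, if s (toLex (c, a)) (toLex (d, b)) then 1 else 0) else 0)
        else 0) else 0)
  refine ⟨P, fun m => ?_⟩
  rw [hP m]
  unfold YG
  apply Finset.sum_congr rfl
  intro f _
  by_cases hg : AllGood f
  · rw [if_pos hg, if_pos (show ∀ c : κ, ¬ (Setoid.ker f) (toLex (c, false)) (toLex (c, true))
      from hg)]
    congr 1
    unfold qN hh
    apply Finset.sum_congr rfl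
    intro c _
    apply Finset.sum_congr rfl
    intro d _
    congr 2
    apply Finset.sum_congr rfl
    intro a _
    apply Finset.sum_congr rfl
    intro b _
    exact if_congr Iff.rfl rfl rfl
  · rw [if_neg hg, if_neg (show ¬ ∀ c : κ, ¬ (Setoid.ker f) (toLex (c, false)) (toLex (c, true))
      from hg)]

theorem YG_iso (m : ℕ) (G H : SimpleGraph κ) (e : G ≃g H) : YG m G = YG m H := by
  classical
  unfold YG
  let E : (κ ×ₗ Bool → Fin m) ≃ (κ ×ₗ Bool → Fin m) :=
    { toFun := fun f y => f (toLex (e (ofLex y).1, (ofLex y).2))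
      invFun := fun f y => f (toLex (e.symm (ofLex y).1, (ofLex y).2))
      left_inv := fun f => by
        funext y
        simp
      right_inv := fun f => by
        funext y
        simp }
  rw [← Equiv.sum_comp E]
  apply Finset.sum_congr rfl
  intro f _
  have h1 : AllGood (E f) ↔ AllGood f := by
    constructor
    · intro h c
      have := h (e.symm c)
      simpa [E] using this
    · intro h c
      exact h (e c)
  rw [if_congr h1 rfl rfl]
  congr 2
  exact qN_iso G H e f

/-! ### The 4-term relation -/

/-- The exponent modulo 2. -/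
noncomputable def Q2 (G : SimpleGraph κ) (f : κ ×ₗ Bool → Fin m) : ZMod 2 := (qN G f : ZMod 2)

theorem Q2_eq (G : SimpleGraph κ) [DecidableRel G.Adj] (f : κ ×ₗ Bool → Fin m) : Q2 G f =
    ∑ c : κ, ∑ d : κ, if c < d then (if G.Adj c d then (hh f c d : ZMod 2) else 0) else 0 := by
  classical
  unfold Q2 qN
  push_cast
  apply Finset.sum_congr rfl
  intro c _
  apply Finset.sum_congr rfl
  intro d _
  congr

theorem Q2_toggle (G : SimpleGraph κ) (f : κ ×ₗ Bool → Fin m) (a b : κ) (hab : a ≠ b) :
    Q2 (toggle G a b) f = Q2 G f + (hh f a b : ZMod 2) := by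
  classical
  have h0 : ∑ v : κ, (if v ≠ a then (if v = b then (hh f a b : ZMod 2) else 0) else 0) =
      (hh f a b : ZMod 2) := by
    rw [Finset.sum_eq_single b]
    · simp [hab.symm]
    · intro v _ hv
      simp [hv]
    · simp
  rw [Q2_eq, Q2_eq, ← h0, ← star_sum a (fun v => if v = b then (hh f a b : ZMod 2) else 0),
    ← Finset.sum_add_distrib]
  apply Finset.sum_congr rfl
  intro c _
  rw [← Finset.sum_add_distrib]
  apply Finset.sum_congr rfl
  intro d _
  by_cases hcd : c < d
  · simp only [hcd, if_true]
    have hne : c ≠ d := hcd.ne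
    have hadj : (toggle G a b).Adj c d ↔ Xor (G.Adj c d) ((c = a ∧ d = b) ∨ (c = b ∧ d = a)) := by
      simp [toggle, hne]
    rw [if_congr hadj rfl rfl]
    by_cases h1 : c = a ∧ d = b
    · obtain ⟨rfl, rfl⟩ := h1
      by_cases hG : G.Adj c d
      · simp [hG, Xor, hne, hne.symm, zmod2_self]
      · simp [hG, Xor, hne, hne.symm]
    · by_cases h2 : c = b ∧ d = a
      · obtain ⟨rfl, rfl⟩ := h2
        rw [hh_comm f d c]
        by_cases hG : G.Adj c d
        · simp [hG, Xor, hne, hne.symm, zmod2_self]
        · simp [hG, Xor, hne, hne.symm]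
      · have e1 : (if c = a then (if d = b then (hh f a b : ZMod 2) else 0) else 0) = 0 := by
          split_ifs with h3 h4
          · exact absurd ⟨h3, h4⟩ h1
          · rfl
          · rfl
        have e2 : (if d = a then (if c = b then (hh f a b : ZMod 2) else 0) else 0) = 0 := by
          split_ifs with h3 h4
          · exact absurd ⟨h4, h3⟩ h2
          · rfl
          · rfl
        rw [e1, e2, add_zero, add_zero]
        congr 1
        simp [Xor, h1, h2]
  · simp [hcd]

theorem Q2_slide (G : SimpleGraph κ) [DecidableRel G.Adj] (f : κ ×ₗ Bool → Fin m) (a b : κ) :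
    Q2 (slide G a b) f = Q2 G f +
      ∑ v : κ, (if v ≠ a then (if G.Adj b v then (hh f a v : ZMod 2) else 0) else 0) := by
  classical
  rw [Q2_eq, Q2_eq, ← star_sum a (fun v => if G.Adj b v then (hh f a v : ZMod 2) else 0),
    ← Finset.sum_add_distrib]
  apply Finset.sum_congr rfl
  intro c _
  rw [← Finset.sum_add_distrib]
  apply Finset.sum_congr rfl
  intro d _
  by_cases hcd : c < d
  · simp only [hcd, if_true]
    have hne : c ≠ d := hcd.ne
    have hadj : (slide G a b).Adj c d ↔
        Xor (G.Adj c d) ((c = a ∧ G.Adj d b) ∨ (d = a ∧ G.Adj c b)) := by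
      simp [slide, hne]
    rw [if_congr hadj rfl rfl]
    by_cases h1 : c = a
    · subst h1
      have h2 : d ≠ c := hne.symm
      rw [if_congr (G.adj_comm b d) rfl rfl]
      by_cases hG : G.Adj c d
      · by_cases hb : G.Adj d b <;> simp [hG, hb, h2, Xor, zmod2_self]
      · by_cases hb : G.Adj d b <;> simp [hG, hb, h2, Xor]
    · by_cases h2 : d = a
      · subst h2
        rw [hh_comm f d c, if_congr (G.adj_comm b c) rfl rfl]
        by_cases hG : G.Adj c d
        · by_cases hb : G.Adj c b <;> simp [hG, hb, h1, Xor, zmod2_self]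
        · by_cases hb : G.Adj c b <;> simp [hG, hb, h1, Xor]
      · simp [h1, h2, Xor]
  · simp [hcd]

/-- The change of the colours of `b`. -/
def recol (a b : κ) (f : κ ×ₗ Bool → Fin m) : κ ×ₗ Bool → Fin m := fun y =>
  if (ofLex y).1 = b then Equiv.swap (f (toLex (a, false))) (f (toLex (a, true))) (f y) else f y

theorem recol_ne (a b c : κ) (o : Bool) (h : c ≠ b) (f : κ ×ₗ Bool → Fin m) :
    recol a b f (toLex (c, o)) = f (toLex (c, o)) := by
  unfold recol
  rw [if_neg]
  exact h

theorem recol_self (a b : κ) (o : Bool) (f : κ ×ₗ Bool → Fin m) :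
    recol a b f (toLex (b, o)) =
      Equiv.swap (f (toLex (a, false))) (f (toLex (a, true))) (f (toLex (b, o))) := by
  unfold recol
  rw [if_pos]
  rfl

theorem recol_recol (a b : κ) (hab : a ≠ b) (f : κ ×ₗ Bool → Fin m) :
    recol a b (recol a b f) = f := by
  funext y
  have hy : y = toLex ((ofLex y).1, (ofLex y).2) := rfl
  rw [hy]
  generalize (ofLex y).1 = c
  generalize (ofLex y).2 = o
  by_cases h : c = b
  · subst h
    rw [recol_self, recol_self, recol_ne _ _ _ _ hab, recol_ne _ _ _ _ hab]
    simp
  · rw [recol_ne _ _ _ _ h, recol_ne _ _ _ _ h]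

theorem allGood_recol (a b : κ) (f : κ ×ₗ Bool → Fin m) : AllGood (recol a b f) ↔ AllGood f := by
  unfold AllGood
  apply forall_congr'
  intro c
  by_cases h : c = b
  · subst h
    rw [recol_self, recol_self]
    simp
  · rw [recol_ne _ _ _ _ h, recol_ne _ _ _ _ h]

/-- The main identity for the colours. -/
theorem swap_sum (A0 A1 B0 B1 : Fin m) (hA : A0 ≠ A1) (hB : B0 ≠ B1) (n : Fin m → ZMod 2)
    (h : ((if A0 = B0 then 1 else 0) + (if A0 = B1 then 1 else 0) +
      ((if A1 = B0 then 1 else 0) + (if A1 = B1 then 1 else 0)) : ZMod 2) = 1) :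
    n (Equiv.swap A0 A1 B0) + n (Equiv.swap A0 A1 B1) = n B0 + n B1 + (n A0 + n A1) := by
  have h2 : ∀ x : ZMod 2, x + x = 0 := zmod2_self
  by_cases h00 : A0 = B0
  · subst h00
    by_cases h11 : A1 = B1
    · subst h11
      exfalso
      simp [hA, hA.symm] at h
    · rw [Equiv.swap_apply_left, Equiv.swap_apply_of_ne_of_ne hB.symm (Ne.symm h11)]
      linear_combination -(h2 (n A0))
  · by_cases h01 : A0 = B1
    · subst h01
      by_cases h10 : A1 = B0
      · subst h10
        exfalso
        simp [hA, hA.symm] at h
      · rw [Equiv.swap_apply_left, Equiv.swap_apply_of_ne_of_ne hB (Ne.symm h10)]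
        linear_combination -(h2 (n A0))
    · by_cases h10 : A1 = B0
      · subst h10
        rw [Equiv.swap_apply_right, Equiv.swap_apply_of_ne_of_ne (Ne.symm h01) hB.symm]
        linear_combination -(h2 (n A1))
      · by_cases h11 : A1 = B1
        · subst h11
          rw [Equiv.swap_apply_right, Equiv.swap_apply_of_ne_of_ne (Ne.symm h00) hB]
          linear_combination -(h2 (n A1))
        · exfalso
          simp [h00, h01, h10, h11] at h

theorem hh_cast (f : κ ×ₗ Bool → Fin m) (c d : κ) : (hh f c d : ZMod 2) =
    (if f (toLex (c, false)) = f (toLex (d, false)) then 1 else 0) +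
    (if f (toLex (c, false)) = f (toLex (d, true)) then 1 else 0) +
    ((if f (toLex (c, true)) = f (toLex (d, false)) then 1 else 0) +
      (if f (toLex (c, true)) = f (toLex (d, true)) then 1 else 0)) := by
  unfold hh
  simp only [Fintype.sum_bool]
  push_cast
  ring

theorem hh_recol_self (a b : κ) (hab : a ≠ b) (f : κ ×ₗ Bool → Fin m) :
    hh (recol a b f) a b = hh f a b := by
  unfold hh
  simp only [Fintype.sum_bool, recol_self, recol_ne a b a _ hab]
  have h1 : ∀ x y z w : Fin m, (x = Equiv.swap x y z ↔ z = y) ∧ (y = Equiv.swap x y z ↔ z = x) := by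
    intro x y z _
    constructor
    · rw [eq_comm, Equiv.swap_apply_eq_iff, Equiv.swap_apply_left]
    · rw [eq_comm, Equiv.swap_apply_eq_iff, Equiv.swap_apply_right]
  have h2 : ∀ z : Fin m, (f (toLex (a, false)) =
      Equiv.swap (f (toLex (a, false))) (f (toLex (a, true))) z ↔ z = f (toLex (a, true))) :=
    fun z => (h1 _ _ z z).1
  have h3 : ∀ z : Fin m, (f (toLex (a, true)) =
      Equiv.swap (f (toLex (a, false))) (f (toLex (a, true))) z ↔ z = f (toLex (a, false))) :=
    fun z => (h1 _ _ z z).2
  simp only [h2, h3]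
  simp only [eq_comm (a := f (toLex (b, false))), eq_comm (a := f (toLex (b, true)))]
  ring

theorem hh_recol_ne (a b c d : κ) (f : κ ×ₗ Bool → Fin m) (hc : c ≠ b) (hd : d ≠ b) :
    hh (recol a b f) c d = hh f c d := by
  unfold hh
  simp only [recol_ne _ _ _ _ hc, recol_ne _ _ _ _ hd]

theorem hh_recol_b (a b v : κ) (hv : v ≠ b) (f : κ ×ₗ Bool → Fin m)
    (hg : AllGood f) (h : (hh f a b : ZMod 2) = 1) :
    (hh (recol a b f) b v : ZMod 2) = hh f b v + hh f a v := by
  rw [hh_cast, hh_cast, hh_cast]
  rw [hh_cast] at h
  simp only [recol_self, recol_ne _ _ _ _ hv]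
  have := swap_sum _ _ _ _ (hg a) (hg b) (fun x : Fin m =>
    (if x = f (toLex (v, false)) then 1 else 0) + (if x = f (toLex (v, true)) then 1 else 0)) h
  exact this

theorem Q2_recol (G : SimpleGraph κ) [DecidableRel G.Adj] (a b : κ) (hab : a ≠ b)
    (f : κ ×ₗ Bool → Fin m) (hg : AllGood f) (h : (hh f a b : ZMod 2) = 1) :
    Q2 G (recol a b f) = Q2 G f +
      ∑ v : κ, (if v ≠ a then (if G.Adj b v then (hh f a v : ZMod 2) else 0) else 0) := by
  classical
  have h0 : ∑ v : κ, (if v ≠ a then (if G.Adj b v then (hh f a v : ZMod 2) else 0) else 0) =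
      ∑ v : κ, (if v ≠ b then (if v ≠ a then (if G.Adj b v then (hh f a v : ZMod 2) else 0)
        else 0) else 0) := by
    apply Finset.sum_congr rfl
    intro v _
    by_cases hv : v = b
    · subst hv; simp
    · simp [hv]
  rw [h0, ← star_sum b (fun v => if v ≠ a then (if G.Adj b v then (hh f a v : ZMod 2) else 0)
        else 0), Q2_eq, Q2_eq, ← Finset.sum_add_distrib]
  apply Finset.sum_congr rfl
  intro c _
  rw [← Finset.sum_add_distrib]
  apply Finset.sum_congr rfl
  intro d _
  by_cases hcd : c < d
  · simp only [hcd, if_true]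
    have hne : c ≠ d := hcd.ne
    by_cases h1 : c = b
    · subst h1
      have h2 : d ≠ c := hne.symm
      simp only [if_true, h2, if_false, add_zero]
      by_cases hG : G.Adj c d
      · simp only [hG, if_true]
        by_cases hda : d = a
        · subst hda
          rw [hh_comm (recol d c f) c d, hh_recol_self d c hab, hh_comm f d c]
          simp
        · rw [hh_recol_b a c d h2 f hg h]
          simp [hda]
      · simp [hG]
    · by_cases h2 : d = b
      · subst h2
        simp only [if_true, h1, if_false, zero_add]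
        rw [if_congr (G.adj_comm d c) rfl rfl]
        by_cases hG : G.Adj c d
        · simp only [hG, if_true]
          by_cases hda : c = a
          · subst hda
            rw [hh_recol_self c d hab]
            simp
          · rw [hh_comm (recol a d f) c d, hh_recol_b a d c h1 f hg h, hh_comm f d c]
            simp [hda]
        · simp [hG]
      · rw [hh_recol_ne a b c d f h1 h2]
        simp [h1, h2]
  · simp [hcd]

theorem YG_four_term (m : ℕ) (G : SimpleGraph κ) (a b : κ) (hab : a ≠ b) :
    YG m G - YG m (toggle G a b) = YG m (slide G a b) - YG m (toggle (slide G a b) a b) := by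
  classical
  unfold YG
  rw [← Finset.sum_sub_distrib, ← Finset.sum_sub_distrib]
  let E : (κ ×ₗ Bool → Fin m) ≃ (κ ×ₗ Bool → Fin m) :=
    { toFun := recol a b
      invFun := recol a b
      left_inv := recol_recol a b hab
      right_inv := recol_recol a b hab }
  rw [← Equiv.sum_comp E]
  apply Finset.sum_congr rfl
  intro f _
  show (if AllGood (recol a b f) then (-1 : ℤ) ^ qN G (recol a b f) else 0) -
    (if AllGood (recol a b f) then (-1) ^ qN (toggle G a b) (recol a b f) else 0) = _
  rw [if_congr (allGood_recol a b f) rfl rfl, if_congr (allGood_recol a b f) rfl rfl]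
  by_cases hg : AllGood f
  · simp only [hg, if_true, neg_one_pow_eq_sg2]
    have e1 := Q2_toggle G (recol a b f) a b hab
    have e2 := Q2_toggle (slide G a b) f a b hab
    have e3 := Q2_slide G f a b
    rw [hh_recol_self a b hab] at e1
    rw [← Q2, ← Q2, ← Q2, ← Q2, e1, e2, sg2_add, sg2_add]
    rcases zmod2_cases (hh f a b : ZMod 2) with h | h
    · rw [h, show sg2 0 = 1 by decide]
      ring
    · rw [Q2_recol G a b hab f hg h, e3]
  · simp [hg]

end Pool.Agent.Q127.SL
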