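import Mathlib.Data.Prod.Lex
import Mathlib.Data.List.Count
import Mathlib.Data.List.Perm.Basic
import Mathlib.Data.Complex.Basic
import Mathlib.Algebra.Polynomial.Eval.Defs
import Mathlib.Algebra.Polynomial.Basic
import Mathlib.Algebra.Algebra.Basic
import Mathlib.Tactic

/-!
# Line words: the Weyl algebra against the colouring model

A letter is a pair `(l, o)`: the line `l` and its end `o` (`true` is the tail, `false` the head).
-/

set_option autoImplicit false

namespace Pool.Agent.Q127.SL

open Polynomial

/-- All ways to take one letter out of a list. -/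
def picks {α : Type*} : List α → List (α × List α)
  | [] => []
  | x :: p => (x, p) :: (picks p).map fun yr => (yr.1, x :: yr.2)

theorem picks_perm {α : Type*} : ∀ (p : List α) (yr : α × List α), yr ∈ picks p →
    (yr.1 :: yr.2).Perm p
  | [], yr, h => by simp [picks] at h
  | x :: p, yr, h => by
    simp only [picks, List.mem_cons, List.mem_map] at h
    rcases h with rfl | ⟨yr', h', rfl⟩
    · exact List.Perm.refl _
    · exact (List.Perm.swap _ _ _).trans ((picks_perm p yr' h').cons x)

section ring

variable {α R : Type*} [Ring R]

/-- Moving `x` through a product of elements with scalar commutators. -/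
theorem prod_mul_comm (z : α → R) (x : R) (κ : α → R) (hκ : ∀ y, z y * x = x * z y + κ y)
    (hc : ∀ y (r : R), κ y * r = r * κ y) : ∀ p : List α,
    (p.map z).prod * x = x * (p.map z).prod +
      ((picks p).map fun yr => κ yr.1 * (yr.2.map z).prod).sum
  | [] => by simp [picks]
  | y :: p => by
    have ih := prod_mul_comm z x κ hκ hc p
    have h1 : ((picks (y :: p)).map fun yr => κ yr.1 * (yr.2.map z).prod).sum =
        κ y * (p.map z).prod +
          z y * ((picks p).map fun yr => κ yr.1 * (yr.2.map z).prod).sum := by
      simp only [picks, List.map_cons, List.sum_cons, List.map_map, ← List.sum_map_mul_left]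
      congr 2
      apply List.map_congr_left
      intro yr _
      simp only [Function.comp, List.map_cons, List.prod_cons]
      rw [← mul_assoc, hc, mul_assoc]
    rw [h1, List.map_cons, List.prod_cons, mul_assoc, ih, mul_add, ← mul_assoc, hκ, add_mul]
    noncomm_ring

end ring

section sign

variable {α β : Type*} [LinearOrder α] [DecidableEq β]

/-- The number of pairs of letters of the same colour in increasing order. -/
def T (f : α → β) : List α → ℕ
  | [] => 0
  | x :: w => w.countP (fun z => x < z ∧ f z = f x) + T f w

/-- The sign of a word with a colouring. -/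
def sgn (f : α → β) (w : List α) : ℤ := (-1) ^ T f w

theorem sgn_cons (f : α → β) (x : α) (w : List α) :
    sgn f (x :: w) = (-1) ^ (w.countP (fun z => x < z ∧ f z = f x)) * sgn f w := by
  simp only [sgn, T, pow_add]

theorem sgn_swap_of_ne (f : α → β) (x y : α) (w : List α) (h : f x ≠ f y) :
    sgn f (x :: y :: w) = sgn f (y :: x :: w) := by
  simp only [sgn_cons, List.countP_cons]
  simp only [h, Ne.symm h, and_false, decide_false]
  simp
  ring

theorem sgn_swap_of_eq (f : α → β) (x y : α) (w : List α) (h : f x = f y) (hxy : x ≠ y) :
    sgn f (x :: y :: w) = - sgn f (y :: x :: w) := by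
  simp only [sgn_cons, List.countP_cons, h, and_true]
  rcases lt_or_gt_of_ne hxy with h1 | h1
  · simp only [h1, not_lt.2 h1.le, decide_true, decide_false, if_true]
    simp
    ring
  · simp only [h1, not_lt.2 h1.le, decide_true, decide_false, if_true]
    simp
    ring

theorem countP_perm_eq (f : α → β) (x : α) {u v : List α} (h : u.Perm v) :
    u.countP (fun z => x < z ∧ f z = f x) = v.countP (fun z => x < z ∧ f z = f x) :=
  h.countP_eq _

/-- The expansion of the sign `(-1)^{number of letters of colour c in p}`. -/
theorem sgn_expand (f : α → β) (c : β) (q : List α) : ∀ p : List α, p.Nodup →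
    (-1 : ℤ) ^ (p.countP fun y => f y = c) * sgn f (p ++ q) =
      sgn f (p ++ q) - 2 * ((picks p).map fun yr =>
        if f yr.1 = c then sgn f (yr.1 :: (yr.2 ++ q)) else 0).sum
  | [], _ => by simp [picks]
  | x :: p, hnd => by
    have ih := sgn_expand f c q p (List.nodup_cons.1 hnd).2
    have hx : x ∉ p := (List.nodup_cons.1 hnd).1
    set θ : ℤ := (-1) ^ ((p ++ q).countP (fun z => x < z ∧ f z = f x)) with hθ
    have h0 : sgn f (x :: p ++ q) = θ * sgn f (p ++ q) := by
      rw [List.cons_append, sgn_cons]
    have key : ((picks p).map fun yr =>
        if f yr.1 = c then sgn f (yr.1 :: x :: (yr.2 ++ q)) else 0).sum =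
        (if f x = c then -θ else θ) * ((picks p).map fun yr =>
        if f yr.1 = c then sgn f (yr.1 :: (yr.2 ++ q)) else 0).sum := by
      rw [← List.sum_map_mul_left]
      congr 1
      apply List.map_congr_left
      intro yr hyr
      have hp := picks_perm p yr hyr
      have hxy : yr.1 ≠ x := by
        rintro h
        apply hx
        rw [← h]
        exact hp.subset (List.mem_cons_self)
      have hp' : (yr.1 :: (yr.2 ++ q)).Perm (p ++ q) := by
        rw [← List.cons_append]
        exact hp.append_right q
      by_cases hc : f yr.1 = c
      · simp only [hc, if_true]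
        by_cases hxc : f x = c
        · rw [if_pos hxc, sgn_swap_of_eq f _ _ _ (hc.trans hxc.symm) hxy, sgn_cons f x,
            countP_perm_eq f x hp', hθ]
          ring
        · rw [if_neg hxc, sgn_swap_of_ne f _ _ _ (by rw [hc]; exact fun h => hxc h.symm),
            sgn_cons f x, countP_perm_eq f x hp', hθ]
      · simp [hc]
    have h1 : ((picks (x :: p)).map fun yr =>
        if f yr.1 = c then sgn f (yr.1 :: (yr.2 ++ q)) else 0).sum =
        (if f x = c then θ * sgn f (p ++ q) else 0) +
        (if f x = c then -θ else θ) * ((picks p).map fun yr =>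
        if f yr.1 = c then sgn f (yr.1 :: (yr.2 ++ q)) else 0).sum := by
      rw [← key]
      simp only [picks, List.map_cons, List.sum_cons, List.map_map]
      congr 1
      rw [← h0]
      rfl
    rw [h1, h0, List.countP_cons]
    by_cases hxc : f x = c
    · simp only [hxc, decide_true, if_true, pow_add, pow_one] at *
      linear_combination (-θ) * ih
    · simp only [hxc, decide_false, if_false] at *
      simp only [Bool.false_eq_true, if_false, add_zero, zero_add]
      linear_combination θ * ih

end sign

end Pool.Agent.Q127.SL
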