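import Pool.Agent.Q127.SL.Line
import Mathlib.Data.Prod.Lex
import Mathlib.Data.Fintype.BigOperators
import Mathlib.Algebra.BigOperators.Group.List.Basic

/-!
# The line theorem
-/

set_option autoImplicit false
set_option linter.unusedSectionVars false
set_option linter.unnecessarySeqFocus false

namespace Pool.Agent.Q127.SL

open Polynomial Finset

section basic

variable {ι : Type*} [LinearOrder ι]

/-- The line of a letter. -/
def lab (y : ι ×ₗ Bool) : ι := (ofLex y).1

/-- The end of the line: `true` for the tail, `false` for the head. -/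
def ori (y : ι ×ₗ Bool) : Bool := (ofLex y).2

/-- The letter. -/
def ltr (l : ι) (o : Bool) : ι ×ₗ Bool := toLex (l, o)

@[simp] theorem lab_ltr (l : ι) (o : Bool) : lab (ltr l o) = l := rfl
@[simp] theorem ori_ltr (l : ι) (o : Bool) : ori (ltr l o) = o := rfl

theorem eq_ltr (y : ι ×ₗ Bool) : y = ltr (lab y) (ori y) := rfl

/-- The other end. -/
def bar (y : ι ×ₗ Bool) : ι ×ₗ Bool := ltr (lab y) (!ori y)

@[simp] theorem lab_bar (y : ι ×ₗ Bool) : lab (bar y) = lab y := rfl
@[simp] theorem ori_bar (y : ι ×ₗ Bool) : ori (bar y) = !ori y := rfl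

theorem bar_bar (y : ι ×ₗ Bool) : bar (bar y) = y := by
  rw [eq_ltr y]; simp [bar]

theorem bar_ne (y : ι ×ₗ Bool) : bar y ≠ y := by
  intro h
  have := congrArg ori h
  simp at this

theorem eq_or_eq_bar (x y : ι ×ₗ Bool) (h : lab x = lab y) : x = y ∨ x = bar y := by
  rw [eq_ltr x, eq_ltr y]
  rcases hx : ori x <;> rcases hy : ori y <;> simp [bar, h]

theorem lt_iff (x y : ι ×ₗ Bool) : x < y ↔ lab x < lab y ∨ lab x = lab y ∧ ori x < ori y := by
  rw [eq_ltr x, eq_ltr y]
  exact Prod.Lex.toLex_lt_toLex

/-- A closed word: distinct letters, with every letter its other end. -/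
def Closed (w : List (ι ×ₗ Bool)) : Prop := w.Nodup ∧ ∀ y ∈ w, bar y ∈ w

theorem Closed.perm {u v : List (ι ×ₗ Bool)} (h : Closed u) (p : u.Perm v) : Closed v :=
  ⟨p.nodup_iff.1 h.1, fun y hy => p.subset (h.2 y (p.symm.subset hy))⟩

/-- Decomposition of a closed word. -/
theorem Closed.decomp {x : ι ×ₗ Bool} {r : List (ι ×ₗ Bool)} (h : Closed (x :: r)) :
    ∃ p q : List (ι ×ₗ Bool), r = p ++ bar x :: q ∧ Closed (p ++ q) ∧
      (∀ y ∈ p, lab y ≠ lab x) ∧ (∀ y ∈ q, lab y ≠ lab x) := by
  have h1 : bar x ∈ r := by
    have := h.2 x (List.mem_cons_self)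
    rcases List.mem_cons.1 this with h' | h'
    · exact absurd h' (bar_ne x)
    · exact h'
  obtain ⟨p, q, rfl⟩ := List.append_of_mem h1
  have hnd := h.1
  rw [List.nodup_cons] at hnd
  obtain ⟨hx, hnd⟩ := hnd
  have hnd' : (bar x :: (p ++ q)).Nodup := (List.perm_middle.nodup_iff).1 hnd
  rw [List.nodup_cons] at hnd'
  obtain ⟨hbx, hpq⟩ := hnd'
  have hx' : x ∉ p ++ q := fun hh => hx (by
    rcases List.mem_append.1 hh with h' | h'
    · exact List.mem_append_left _ h'
    · exact List.mem_append_right _ (List.mem_cons_of_mem _ h'))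
  have hlab : ∀ y ∈ p ++ q, lab y ≠ lab x := by
    intro y hy hl
    rcases eq_or_eq_bar y x hl with rfl | rfl
    · exact hx' hy
    · exact hbx hy
  refine ⟨p, q, rfl, ⟨hpq, ?_⟩, fun y hy => hlab y (List.mem_append_left _ hy),
    fun y hy => hlab y (List.mem_append_right _ hy)⟩
  intro y hy
  have h2 : bar y ∈ x :: (p ++ bar x :: q) := h.2 y (by
    rcases List.mem_append.1 hy with h' | h'
    · exact List.mem_cons_of_mem _ (List.mem_append_left _ h')
    · exact List.mem_cons_of_mem _ (List.mem_append_right _ (List.mem_cons_of_mem _ h')))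
  have h3 : bar y ≠ x := by
    intro hh
    apply hlab y hy
    rw [← hh, lab_bar]
  have h4 : bar y ≠ bar x := by
    intro hh
    have := congrArg lab hh
    exact hlab y hy (by simpa using this)
  rcases List.mem_cons.1 h2 with h' | h'
  · exact absurd h' h3
  rcases List.mem_append.1 h' with h' | h'
  · exact List.mem_append_left _ h'
  rcases List.mem_cons.1 h' with h' | h'
  · exact absurd h' h4
  · exact List.mem_append_right _ h'

end basic

section sums

variable {ι : Type*} [Fintype ι] [DecidableEq ι]

theorem sum_update {β M : Type*} [Fintype β] [AddCommMonoid M] (l : ι) (F : (ι → β) → M) :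
    ∑ f : ι → β, ∑ c : β, F (Function.update f l c) = Fintype.card β • ∑ f : ι → β, F f := by
  classical
  rw [← Finset.sum_product' Finset.univ Finset.univ (fun f c => F (Function.update f l c)),
    Finset.univ_product_univ]
  let e : (ι → β) × β ≃ (ι → β) × β :=
    { toFun := fun fc => (Function.update fc.1 l fc.2, fc.1 l)
      invFun := fun fc => (Function.update fc.1 l fc.2, fc.1 l)
      left_inv := fun fc => by simp
      right_inv := fun fc => by simp }
  rw [← Equiv.sum_comp e.symm]
  have : ∀ x : (ι → β) × β, F (Function.update (e.symm x).1 l (e.symm x).2) = F x.1 := by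
    intro x
    congr 1
    show (e (e.symm x)).1 = x.1
    rw [Equiv.apply_symm_apply]
  simp only [this]
  rw [← Finset.univ_product_univ, Finset.sum_product' Finset.univ Finset.univ (fun f _ => F f)]
  simp [Finset.smul_sum]

end sums

section weyl

variable {ι R : Type*} [LinearOrder ι] [Ring R]

/-- The operator of a letter. -/
def val (a b : R) (s : ι → Bool) (y : ι ×ₗ Bool) : R :=
  if ori y then (if s (lab y) then -b else a) else (if s (lab y) then a else b)

theorem weyl_key (a b : R) (hab : b * a - a * b = 1) (s : ι → Bool) (p : List (ι ×ₗ Bool)) :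
    a * (p.map (val a b s)).prod * b - b * (p.map (val a b s)).prod * a =
      - (p.map (val a b s)).prod -
        ((picks p).map fun yr => ((yr.1 :: yr.2).map (val a b s)).prod).sum := by
  have hba : b * a = a * b + 1 := by rw [← hab]; abel
  have h1 := prod_mul_comm (val a b s) b
    (fun y => if ori y then (if s (lab y) then 0 else -1) else (if s (lab y) then -1 else 0))
    (fun y => by
      unfold val
      split_ifs <;> simp [hba])
    (fun y r => by split_ifs <;> simp) p
  have h2 := prod_mul_comm (val a b s) a
    (fun y => if ori y then (if s (lab y) then -1 else 0) else (if s (lab y) then 0 else 1))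
    (fun y => by
      unfold val
      split_ifs <;> simp [hba] <;> abel)
    (fun y r => by split_ifs <;> simp) p
  rw [mul_assoc a, h1, mul_assoc b, h2, mul_add, mul_add, ← List.sum_map_mul_left,
    ← List.sum_map_mul_left]
  have h3 : ((picks p).map fun yr => ((yr.1 :: yr.2).map (val a b s)).prod) =
      (picks p).map fun yr =>
        b * ((if ori yr.1 then (if s (lab yr.1) then -1 else 0) else
          (if s (lab yr.1) then 0 else 1)) * (yr.2.map (val a b s)).prod) -
        a * ((if ori yr.1 then (if s (lab yr.1) then 0 else -1) else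
          (if s (lab yr.1) then -1 else 0)) * (yr.2.map (val a b s)).prod) := by
    apply List.map_congr_left
    intro yr _
    rw [List.map_cons, List.prod_cons]
    unfold val
    split_ifs <;> simp
  rw [h3]
  have h4 : ∀ (L : List ((ι ×ₗ Bool) × List (ι ×ₗ Bool)))
      (F G : (ι ×ₗ Bool) × List (ι ×ₗ Bool) → R),
      (L.map fun x => F x - G x).sum = (L.map F).sum - (L.map G).sum := by
    intro L F G
    induction L with
    | nil => simp
    | cons x L ih => simp only [List.map_cons, List.sum_cons, ih]; abel
  rw [h4]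
  rw [← mul_assoc, ← mul_assoc, hba, add_mul, one_mul]
  abel

end weyl

end Pool.Agent.Q127.SL
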