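import Pool.Agent.Q127.SL.Line2
import Mathlib.Algebra.Polynomial.Eval.Defs
import Mathlib.Algebra.Polynomial.Eval.Algebra

/-!
# The line theorem: the Weyl algebra is the colouring model with `-2` colours
-/

set_option autoImplicit false
set_option linter.unusedSectionVars false

namespace Pool.Agent.Q127.SL

open Polynomial Finset

section ins

variable {α β : Type*} [LinearOrder α] [DecidableEq β]

theorem T_insert (f : α → β) (y : α) (q : List α) : ∀ p : List α,
    T f (p ++ y :: q) = T f (p ++ q) + p.countP (fun z => z < y ∧ f z = f y) +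
      q.countP (fun z => y < z ∧ f z = f y)
  | [] => by simp [T]; ring
  | x :: p => by
    simp only [List.cons_append, T, T_insert f y q p, List.countP_append, List.countP_cons]
    by_cases h : x < y
    · by_cases h2 : f x = f y
      · simp [h, h2]; ring
      · simp [h, h2, Ne.symm h2]; ring
    · simp [h]; ring

theorem neg_one_pow_congr' {a b : ℕ} (h : a % 2 = b % 2) : (-1 : ℤ) ^ a = (-1) ^ b := by
  rw [← Nat.mod_add_div a 2, ← Nat.mod_add_div b 2, h]
  simp [pow_add, pow_mul]

theorem sgn_line_gen (f : α → β) (x x' : α) (p q : List α)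
    (hp : ∀ z ∈ p, (x < z ↔ ¬ z < x')) (hq : ∀ z ∈ q, (x < z ↔ x' < z)) (hf : f x = f x') :
    sgn f (x :: (p ++ x' :: q)) =
      (if x < x' then -1 else 1) * ((-1) ^ (p.countP fun y => f y = f x) * sgn f (p ++ q)) := by
  unfold sgn
  rw [T, T_insert]
  simp only [List.countP_append, List.countP_cons, ← hf]
  have h1 : q.countP (fun z => x < z ∧ f z = f x) =
      q.countP (fun z => x' < z ∧ f z = f x) := by
    apply List.countP_congr
    intro z hz
    simp only [hq z hz]
  have h2 : p.countP (fun z => x < z ∧ f z = f x) +
      p.countP (fun z => z < x' ∧ f z = f x) = p.countP fun y => f y = f x := by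
    clear h1
    induction p with
    | nil => simp
    | cons z p ih =>
      have ih' := ih (fun y hy => hp y (List.mem_cons_of_mem _ hy))
      have h := hp z List.mem_cons_self
      simp only [List.countP_cons]
      rw [← ih']
      by_cases h' : x < z
      · simp [h', h.1 h']; ring
      · have h'' : z < x' := by
          by_contra h3
          exact h' (h.2 h3)
        simp [h', h'']; ring
  rw [← h2]
  by_cases h3 : x < x'
  · simp only [h3, if_true]
    rw [← pow_add, show (-1 : ℤ) * (-1) ^ (p.countP (fun z => x < z ∧ f z = f x) +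
      p.countP (fun z => z < x' ∧ f z = f x) + T f (p ++ q)) =
      (-1) ^ (p.countP (fun z => x < z ∧ f z = f x) +
      p.countP (fun z => z < x' ∧ f z = f x) + T f (p ++ q) + 1) by ring]
    apply neg_one_pow_congr'
    rw [h1]
    simp
    omega
  · simp only [h3, if_false]
    rw [← pow_add, one_mul]
    apply neg_one_pow_congr'
    rw [h1]
    simp
    omega

end ins

section main

variable {ι : Type*} [Fintype ι] [LinearOrder ι]

/-- The sum over the colourings with `m` colours. -/
def U (m : ℕ) (w : List (ι ×ₗ Bool)) : ℤ := ∑ f : ι → Fin m, sgn (fun y => f (lab y)) w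

/-- The Weyl algebra state sum. -/
def V {R : Type*} [Ring R] (a b : R) (w : List (ι ×ₗ Bool)) : R :=
  ∑ s : ι → Bool, (w.map (val a b s)).prod

/-- The orientation sign. -/
def eta (x : ι ×ₗ Bool) : ℤ := if ori x then 1 else -1

theorem sgn_line {m : ℕ} (f : ι → Fin m) (x : ι ×ₗ Bool) (p q : List (ι ×ₗ Bool))
    (hp : ∀ y ∈ p, lab y ≠ lab x) (hq : ∀ y ∈ q, lab y ≠ lab x) :
    sgn (fun y => f (lab y)) (x :: (p ++ bar x :: q)) =
      eta x * ((-1) ^ (p.countP fun y => f (lab y) = f (lab x)) *
        sgn (fun y => f (lab y)) (p ++ q)) := by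
  rw [sgn_line_gen (fun y => f (lab y)) x (bar x) p q ?_ ?_ (by simp)]
  · congr 1
    have : x < bar x ↔ ori x = false := by
      simp only [lt_iff, lab_bar, lt_irrefl, ori_bar, true_and, false_or]
      cases ori x <;> simp
    unfold eta
    simp only [this]
    cases ori x <;> simp
  · intro z hz
    have h := hp z hz
    simp only [lt_iff, lab_bar, h, Ne.symm h, false_and, or_false]
    constructor
    · exact fun h' => not_lt.2 h'.le
    · intro h'
      exact lt_of_le_of_ne (not_lt.1 h') (Ne.symm h)
  · intro z hz
    have h := hq z hz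
    simp only [lt_iff, lab_bar, Ne.symm h, false_and, or_false]

theorem sgn_congr {α β : Type*} [LinearOrder α] [DecidableEq β] (f g : α → β) :
    ∀ (w : List α), (∀ y ∈ w, f y = g y) → sgn f w = sgn g w
  | [], _ => rfl
  | x :: w, h => by
    rw [sgn_cons, sgn_cons, sgn_congr f g w (fun y hy => h y (List.mem_cons_of_mem _ hy))]
    congr 2
    apply List.countP_congr
    intro z hz
    simp [h z (List.mem_cons_of_mem _ hz), h x List.mem_cons_self]

theorem sum_list_sum {κ γ M : Type*} [Fintype κ] [AddCommMonoid M] (L : List γ) (F : κ → γ → M) :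
    ∑ k : κ, (L.map (F k)).sum = (L.map fun c => ∑ k : κ, F k c).sum := by
  induction L with
  | nil => simp
  | cons c L ih => simp only [List.map_cons, List.sum_cons, Finset.sum_add_distrib, ih]

/-- The recursion for the colouring model. -/
theorem U_rec (m : ℕ) (x : ι ×ₗ Bool) (p q : List (ι ×ₗ Bool))
    (hpn : p.Nodup)
    (hp : ∀ y ∈ p, lab y ≠ lab x) (hq : ∀ y ∈ q, lab y ≠ lab x) :
    (m : ℤ) * U m (x :: (p ++ bar x :: q)) =
      eta x * (m * U m (p ++ q) -
        2 * ((picks p).map fun yr => U m (yr.1 :: (yr.2 ++ q))).sum) := by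
  have h1 := sum_update (β := Fin m) (lab x)
    (fun f : ι → Fin m => sgn (fun y => f (lab y)) (x :: (p ++ bar x :: q)))
  rw [Fintype.card_fin, nsmul_eq_mul] at h1
  rw [U, ← h1]
  have h2 : ∀ (f : ι → Fin m) (c : Fin m),
      sgn (fun y => Function.update f (lab x) c (lab y)) (x :: (p ++ bar x :: q)) =
      eta x * (sgn (fun y => f (lab y)) (p ++ q) - 2 * ((picks p).map fun yr =>
        if f (lab yr.1) = c then sgn (fun y => f (lab y)) (yr.1 :: (yr.2 ++ q)) else 0).sum) := by
    intro f c
    rw [sgn_line _ x p q hp hq]
    congr 1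
    rw [Function.update_self]
    have e1 : (p.countP fun y => Function.update f (lab x) c (lab y) = c) =
        p.countP fun y => f (lab y) = c := by
      apply List.countP_congr
      intro z hz
      rw [Function.update_of_ne (hp z hz)]
    have e2 : sgn (fun y => Function.update f (lab x) c (lab y)) (p ++ q) =
        sgn (fun y => f (lab y)) (p ++ q) := by
      apply sgn_congr
      intro z hz
      rcases List.mem_append.1 hz with h | h
      · rw [Function.update_of_ne (hp z h)]
      · rw [Function.update_of_ne (hq z h)]
    rw [e1, e2]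
    exact sgn_expand (fun y => f (lab y)) c q p hpn
  simp only [h2]
  have h3 : ∀ f : ι → Fin m, ∑ c : Fin m, eta x * (sgn (fun y => f (lab y)) (p ++ q) -
      2 * ((picks p).map fun yr =>
        if f (lab yr.1) = c then sgn (fun y => f (lab y)) (yr.1 :: (yr.2 ++ q)) else 0).sum) =
      eta x * (m * sgn (fun y => f (lab y)) (p ++ q) -
      2 * ((picks p).map fun yr => sgn (fun y => f (lab y)) (yr.1 :: (yr.2 ++ q))).sum) := by
    intro f
    rw [← Finset.mul_sum, Finset.sum_sub_distrib, ← Finset.mul_sum, sum_list_sum]
    simp
  simp only [h3]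
  rw [← Finset.mul_sum, Finset.sum_sub_distrib, ← Finset.mul_sum, ← Finset.mul_sum, sum_list_sum]
  rfl

/-- The recursion for the Weyl algebra. -/
theorem V_rec {R : Type*} [Ring R] (a b : R) (hab : b * a - a * b = 1) (x : ι ×ₗ Bool)
    (p q : List (ι ×ₗ Bool))
    (hp : ∀ y ∈ p, lab y ≠ lab x) (hq : ∀ y ∈ q, lab y ≠ lab x) :
    2 • V a b (x :: (p ++ bar x :: q)) =
      - (eta x • (V a b (p ++ q) + ((picks p).map fun yr => V a b (yr.1 :: (yr.2 ++ q))).sum)) := by
  have h1 := sum_update (β := Bool) (lab x)
    (fun s : ι → Bool => ((x :: (p ++ bar x :: q)).map (val a b s)).prod)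
  rw [Fintype.card_bool] at h1
  rw [V, ← h1]
  have h2 : ∀ s : ι → Bool, ∑ c : Bool,
      ((x :: (p ++ bar x :: q)).map (val a b (Function.update s (lab x) c))).prod =
      - (eta x • (((p ++ q).map (val a b s)).prod +
        ((picks p).map fun yr => ((yr.1 :: (yr.2 ++ q)).map (val a b s)).prod).sum)) := by
    intro s
    have e1 : ∀ c, p.map (val a b (Function.update s (lab x) c)) = p.map (val a b s) := by
      intro c
      apply List.map_congr_left
      intro z hz
      unfold val
      rw [Function.update_of_ne (hp z hz)]
    have e2 : ∀ c, q.map (val a b (Function.update s (lab x) c)) = q.map (val a b s) := by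
      intro c
      apply List.map_congr_left
      intro z hz
      unfold val
      rw [Function.update_of_ne (hq z hz)]
    have e3 := weyl_key a b hab s p
    have e4 : ((picks p).map fun yr => ((yr.1 :: (yr.2 ++ q)).map (val a b s)).prod).sum =
        ((picks p).map fun yr => ((yr.1 :: yr.2).map (val a b s)).prod).sum *
          (q.map (val a b s)).prod := by
      rw [← List.sum_map_mul_right]
      congr 1
      apply List.map_congr_left
      intro yr _
      rw [← List.cons_append, List.map_append, List.prod_append]
    rw [e4, List.map_append, List.prod_append]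
    simp only [List.map_cons, List.map_append, List.prod_cons, List.prod_append, e1, e2,
      Fintype.sum_bool]
    set P := (p.map (val a b s)).prod
    set Q := (q.map (val a b s)).prod
    set S := ((picks p).map fun yr => ((yr.1 :: yr.2).map (val a b s)).prod).sum
    have e5 : a * P * b = b * P * a - P - S := by
      have e6 := e3
      rw [sub_eq_iff_eq_add] at e6
      rw [e6]
      abel
    unfold val eta
    simp only [Function.update_self, lab_bar, ori_bar]
    cases hx : ori x
    · simp only [Bool.not_false, if_true, if_false, Bool.false_eq_true]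
      have : a * (P * (-b * Q)) + b * (P * (a * Q)) = (b * P * a - a * P * b) * Q := by
        noncomm_ring
      rw [this, e5]
      noncomm_ring
    · simp only [Bool.not_true, if_true, if_false, Bool.false_eq_true]
      have : -b * (P * (a * Q)) + a * (P * (b * Q)) = (a * P * b - b * P * a) * Q := by
        noncomm_ring
      rw [this, e5]
      noncomm_ring
  simp only [h2]
  rw [Finset.sum_neg_distrib, ← Finset.smul_sum, Finset.sum_add_distrib, sum_list_sum]
  rfl

end main

end Pool.Agent.Q127.SL
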