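import Pool.Agent.Q127.SL.Line3

/-!
# The line theorem: the Weyl algebra is the colouring model with `-2` colours
-/

set_option autoImplicit false
set_option linter.unusedSectionVars false

namespace Pool.Agent.Q127.SL

open Polynomial Finset

variable {ι : Type*} [Fintype ι] [LinearOrder ι]

/-- **The line theorem.** -/
theorem line_thm {R : Type*} [Ring R] (a b : R) (hab : b * a - a * b = 1) : ∀ (L : ℕ)
    (w : List (ι ×ₗ Bool)), Closed w → w.length = 2 * L →
    ∃ P : ℤ[X], (∀ m : ℕ, 1 ≤ m →
        (m : ℤ) ^ L * U m w = (m : ℤ) ^ (Fintype.card ι) * P.eval (m : ℤ)) ∧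
      (4 ^ L : ℤ) • V a b w = ((2 ^ (Fintype.card ι) * P.eval (-2) : ℤ) : R) := by
  intro L
  induction L with
  | zero =>
    intro w _ hl
    have : w = [] := List.length_eq_zero_iff.1 (by simpa using hl)
    subst this
    refine ⟨1, ?_, ?_⟩
    · intro m _
      simp [U, sgn, T]
    · simp [V]
  | succ L ih =>
    intro w hw hl
    match w, hw, hl with
    | [], _, hl => simp at hl
    | x :: r, hw, hl =>
      obtain ⟨p, q, rfl, hpq, hp, hq⟩ := hw.decomp
      have hlen : (p ++ q).length = 2 * L := by
        simp only [List.length_cons, List.length_append] at hl ⊢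
        omega
      classical
      have ih' : ∀ w : List (ι ×ₗ Bool), ∃ P : ℤ[X], Closed w → w.length = 2 * L →
        (∀ m : ℕ, 1 ≤ m →
          (m : ℤ) ^ L * U m w = (m : ℤ) ^ (Fintype.card ι) * P.eval (m : ℤ)) ∧
        (4 ^ L : ℤ) • V a b w = ((2 ^ (Fintype.card ι) * P.eval (-2) : ℤ) : R) := by
        intro w
        by_cases h : Closed w ∧ w.length = 2 * L
        · obtain ⟨P, hP⟩ := ih w h.1 h.2
          exact ⟨P, fun _ _ => hP⟩
        · exact ⟨0, fun h1 h2 => absurd ⟨h1, h2⟩ h⟩
      choose Q hQ using ih'
      have hc : ∀ yr ∈ picks p, Closed (yr.1 :: (yr.2 ++ q)) ∧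
          (yr.1 :: (yr.2 ++ q)).length = 2 * L := by
        intro yr hyr
        have hperm : (yr.1 :: (yr.2 ++ q)).Perm (p ++ q) := by
          rw [← List.cons_append]
          exact (picks_perm p yr hyr).append_right q
        exact ⟨hpq.perm hperm.symm, by rw [hperm.length_eq, hlen]⟩
      obtain ⟨h01, h02⟩ := hQ (p ++ q) hpq hlen
      have hpn : p.Nodup := (List.nodup_append.1 hpq.1).1
      refine ⟨C (eta x) * (X * Q (p ++ q) -
        2 * ((picks p).map fun yr => Q (yr.1 :: (yr.2 ++ q))).sum), ?_, ?_⟩
      · intro m hm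
        rw [pow_succ, mul_assoc, U_rec m x p q hpn hp hq]
        have e1 : (eval (m : ℤ)) ((picks p).map fun yr => Q (yr.1 :: (yr.2 ++ q))).sum =
            ((picks p).map fun yr => (Q (yr.1 :: (yr.2 ++ q))).eval (m : ℤ)).sum := by
          rw [← coe_evalRingHom, map_list_sum, List.map_map]
          rfl
        have e2 : (m : ℤ) ^ L * ((picks p).map fun yr => U m (yr.1 :: (yr.2 ++ q))).sum =
            (m : ℤ) ^ (Fintype.card ι) *
              ((picks p).map fun yr => (Q (yr.1 :: (yr.2 ++ q))).eval (m : ℤ)).sum := by
          rw [← List.sum_map_mul_left, ← List.sum_map_mul_left]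
          congr 1
          apply List.map_congr_left
          intro yr hyr
          exact (hQ _ (hc yr hyr).1 (hc yr hyr).2).1 m hm
        simp only [eval_mul, eval_C, eval_sub, eval_X, eval_ofNat, e1]
        have e0 := h01 m hm
        linear_combination (eta x * m) * e0 - (2 * eta x) * e2
      · have e1 : (eval (-2 : ℤ)) ((picks p).map fun yr => Q (yr.1 :: (yr.2 ++ q))).sum =
            ((picks p).map fun yr => (Q (yr.1 :: (yr.2 ++ q))).eval (-2 : ℤ)).sum := by
          rw [← coe_evalRingHom, map_list_sum, List.map_map]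
          rfl
        have e2 : (4 ^ L : ℤ) • ((picks p).map fun yr => V a b (yr.1 :: (yr.2 ++ q))).sum =
            ((2 ^ (Fintype.card ι) *
              ((picks p).map fun yr => (Q (yr.1 :: (yr.2 ++ q))).eval (-2 : ℤ)).sum : ℤ) : R) := by
          rw [← List.sum_map_mul_left]
          have e3 : ∀ l : List ℤ, ((l.sum : ℤ) : R) = (l.map fun z : ℤ => (z : R)).sum := by
            intro l
            induction l with
            | nil => simp
            | cons z l ih => simp [ih]
          rw [e3, List.map_map, List.smul_sum, List.map_map]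
          congr 1
          apply List.map_congr_left
          intro yr hyr
          exact (hQ _ (hc yr hyr).1 (hc yr hyr).2).2
        have e4 := V_rec a b hab x p q hp hq
        have e5 : (4 ^ (L + 1) : ℤ) • V a b (x :: (p ++ bar x :: q)) =
            (-2 * eta x : ℤ) • ((4 ^ L : ℤ) • V a b (p ++ q) +
              (4 ^ L : ℤ) • ((picks p).map fun yr => V a b (yr.1 :: (yr.2 ++ q))).sum) := by
          calc (4 ^ (L + 1) : ℤ) • V a b (x :: (p ++ bar x :: q))
              = (2 * 4 ^ L : ℤ) • ((2 : ℕ) • V a b (x :: (p ++ bar x :: q))) := by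
                rw [← natCast_zsmul, smul_smul]
                congr 1
                push_cast
                ring
            _ = _ := by
                rw [e4, ← smul_add, smul_neg, ← neg_smul, smul_smul, smul_smul]
                congr 1
                ring
        rw [e5, h02, e2]
        simp only [eval_mul, eval_C, eval_sub, eval_X, eval_ofNat, e1]
        rw [zsmul_eq_mul, ← Int.cast_add, ← Int.cast_mul]
        congr 1
        ring

end Pool.Agent.Q127.SL
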