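import Pool.Agent.Q127.SL.Graph

/-!
# The state sum of a chord diagram in the Weyl algebra
-/

set_option autoImplicit false
set_option linter.unusedSectionVars false

namespace Pool.Agent.Q127.SL

open Polynomial Finset

/-! ### Parity of the pairs -/

section parity

variable {κ : Type*} [LinearOrder κ] {m : ℕ}

theorem list_sum_ofFn (N : ℕ) (g : Fin N → κ) (F : κ → ℕ) :
    ((List.ofFn g).map F).sum = ∑ j : Fin N, F (g j) := by
  rw [List.map_ofFn, List.sum_ofFn]
  rfl

theorem TT_ofFn (f : κ ×ₗ Bool → Fin m) : ∀ (N : ℕ) (g : Fin N → κ), TT f (List.ofFn g) =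
    ∑ i : Fin N, ∑ j : Fin N, if i < j then (if g i < g j then hh f (g i) (g j) else 0) else 0
  | 0, g => by simp [TT]
  | N + 1, g => by
    rw [List.ofFn_succ, TT, TT_ofFn f N, list_sum_ofFn, Fin.sum_univ_succ]
    congr 1
    · rw [Fin.sum_univ_succ]
      simp
    · apply Finset.sum_congr rfl
      intro i _
      rw [Fin.sum_univ_succ]
      simp [Fin.succ_lt_succ_iff]

theorem filter_pair {N : ℕ} (p : Fin N → Prop) [DecidablePred p]
    (h : (Finset.univ.filter p).card = 2) :
    ∃ i j : Fin N, i < j ∧ Finset.univ.filter p = {i, j} := by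
  obtain ⟨x, y, hxy, he⟩ := Finset.card_eq_two.1 h
  rcases lt_or_gt_of_ne hxy with h' | h'
  · exact ⟨x, y, h', he⟩
  · exact ⟨y, x, h', by rw [he, Finset.pair_comm]⟩

theorem pair_mem {N : ℕ} {p : Fin N → Prop} [DecidablePred p] {i j : Fin N}
    (h : Finset.univ.filter p = {i, j}) : p i ∧ p j ∧ ∀ x, p x → x = i ∨ x = j := by
  refine ⟨?_, ?_, ?_⟩
  · have : i ∈ Finset.univ.filter p := by rw [h]; simp
    exact (Finset.mem_filter.1 this).2
  · have : j ∈ Finset.univ.filter p := by rw [h]; simp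
    exact (Finset.mem_filter.1 this).2
  · intro x hx
    have : x ∈ Finset.univ.filter p := Finset.mem_filter.2 ⟨Finset.mem_univ _, hx⟩
    rw [h] at this
    simpa using this

/-- The number of pairs of points `i < j` on the chords `c`, `d`. -/
def npair {n : ℕ} (D : ChordDiagram n) (c d : Fin n) : ℕ :=
  ∑ i : Fin (2 * n), ∑ j : Fin (2 * n), if i < j then
    (if D.chord i = c then (if D.chord j = d then 1 else 0) else 0) else 0

theorem npair_eq {n : ℕ} (D : ChordDiagram n) (c d : Fin n) {i1 i2 j1 j2 : Fin (2 * n)}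
    (hi : i1 < i2) (hj : j1 < j2)
    (h1 : (Finset.univ.filter fun k => D.chord k = c) = {i1, i2})
    (h2 : (Finset.univ.filter fun k => D.chord k = d) = {j1, j2}) :
    npair D c d = ((if i1 < j1 then 1 else 0) + (if i1 < j2 then 1 else 0)) +
      ((if i2 < j1 then 1 else 0) + (if i2 < j2 then 1 else 0)) := by
  have e1 : npair D c d = ∑ i ∈ Finset.univ.filter (fun k => D.chord k = c),
      ∑ j ∈ Finset.univ.filter (fun k => D.chord k = d), if i < j then 1 else 0 := by
    unfold npair
    rw [Finset.sum_filter]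
    apply Finset.sum_congr rfl
    intro i _
    by_cases hc : D.chord i = c
    · simp only [hc, if_true]
      rw [Finset.sum_filter]
      apply Finset.sum_congr rfl
      intro j _
      by_cases hd : D.chord j = d <;> simp [hd]
    · simp [hc]
  rw [e1, h1, h2, Finset.sum_pair hi.ne, Finset.sum_pair hj.ne, Finset.sum_pair hj.ne]

theorem adj_iff_odd {n : ℕ} (D : ChordDiagram n) (c d : Fin n) (hcd : c ≠ d) :
    D.graph.Adj c d ↔ Odd (npair D c d) := by
  obtain ⟨i1, i2, hi, h1⟩ := filter_pair _ (D.two c)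
  obtain ⟨j1, j2, hj, h2⟩ := filter_pair _ (D.two d)
  rw [npair_eq D c d hi hj h1 h2]
  obtain ⟨hi1, hi2, hi3⟩ := pair_mem h1
  obtain ⟨hj1, hj2, hj3⟩ := pair_mem h2
  have n11 : i1 ≠ j1 := fun h => hcd (by rw [← hi1, ← hj1, h])
  have n12 : i1 ≠ j2 := fun h => hcd (by rw [← hi1, ← hj2, h])
  have n21 : i2 ≠ j1 := fun h => hcd (by rw [← hi2, ← hj1, h])
  have n22 : i2 ≠ j2 := fun h => hcd (by rw [← hi2, ← hj2, h])
  have key : D.graph.Adj c d ↔ (i1 < j1 ∧ j1 < i2 ∧ i2 < j2) ∨ (j1 < i1 ∧ i1 < j2 ∧ j2 < i2) := by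
    constructor
    · rintro ⟨_, i, j, k, l, hij, hjk, hkl, ⟨a1, a2, a3, a4⟩ | ⟨a1, a2, a3, a4⟩⟩
      · left
        have hik : i < k := hij.trans hjk
        have hjl : j < l := hjk.trans hkl
        rcases hi3 i a1 with rfl | rfl <;> rcases hi3 k a3 with rfl | rfl <;>
          rcases hj3 j a2 with rfl | rfl <;> rcases hj3 l a4 with rfl | rfl <;>
          first
          | exact ⟨hij, hjk, hkl⟩
          | (exfalso; omega)
      · right
        have hik : i < k := hij.trans hjk
        have hjl : j < l := hjk.trans hkl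
        rcases hj3 i a1 with rfl | rfl <;> rcases hj3 k a3 with rfl | rfl <;>
          rcases hi3 j a2 with rfl | rfl <;> rcases hi3 l a4 with rfl | rfl <;>
          first
          | exact ⟨hij, hjk, hkl⟩
          | (exfalso; omega)
    · rintro (⟨a, b, e⟩ | ⟨a, b, e⟩)
      · exact ⟨hcd, i1, j1, i2, j2, a, b, e, Or.inl ⟨hi1, hj1, hi2, hj2⟩⟩
      · exact ⟨hcd, j1, i1, j2, i2, a, b, e, Or.inr ⟨hj1, hi1, hj2, hi2⟩⟩
  rw [key]
  have v11 : (i1 : ℕ) ≠ j1 := fun h => n11 (Fin.ext h)
  have v12 : (i1 : ℕ) ≠ j2 := fun h => n12 (Fin.ext h)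
  have v21 : (i2 : ℕ) ≠ j1 := fun h => n21 (Fin.ext h)
  have v22 : (i2 : ℕ) ≠ j2 := fun h => n22 (Fin.ext h)
  simp only [Fin.lt_def] at *
  rw [Nat.odd_iff]
  have a1 : (i1 : ℕ) < i2 := hi
  have a2 : (j1 : ℕ) < j2 := hj
  clear key hi1 hi2 hi3 hj1 hj2 hj3 h1 h2
  rcases lt_or_gt_of_ne v11 with b1 | b1 <;> rcases lt_or_gt_of_ne v12 with b2 | b2 <;>
    rcases lt_or_gt_of_ne v21 with b3 | b3 <;> rcases lt_or_gt_of_ne v22 with b4 | b4 <;>
    simp [b1, b2, b3, b4, not_lt.2 b1.le, not_lt.2 b2.le, not_lt.2 b3.le, not_lt.2 b4.le] <;> omega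

theorem TT_graph {n : ℕ} (D : ChordDiagram n) (f : Fin n ×ₗ Bool → Fin m) :
    (TT f (List.ofFn D.chord) : ZMod 2) = (qN D.graph f : ZMod 2) := by
  classical
  have h1 := Q2_eq D.graph f
  unfold Q2 at h1
  rw [h1, TT_ofFn]
  push_cast
  have h2 : ∀ c d : Fin n, (if c < d then (if D.graph.Adj c d then (hh f c d : ZMod 2) else 0)
      else 0) = ∑ i : Fin (2 * n), ∑ j : Fin (2 * n), if i < j then
        (if D.chord i = c then (if D.chord j = d then (if c < d then (hh f c d : ZMod 2) else 0)
          else 0) else 0) else 0 := by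
    intro c d
    have e1 : (∑ i : Fin (2 * n), ∑ j : Fin (2 * n), if i < j then
        (if D.chord i = c then (if D.chord j = d then (if c < d then (hh f c d : ZMod 2) else 0)
          else 0) else 0) else 0) = (npair D c d : ZMod 2) *
          (if c < d then (hh f c d : ZMod 2) else 0) := by
      unfold npair
      push_cast
      rw [Finset.sum_mul]
      apply Finset.sum_congr rfl
      intro i _
      rw [Finset.sum_mul]
      apply Finset.sum_congr rfl
      intro j _
      split_ifs <;> simp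
    rw [e1]
    by_cases hcd : c < d
    · simp only [hcd, if_true]
      by_cases hA : D.graph.Adj c d
      · have := (adj_iff_odd D c d hcd.ne).1 hA
        have h3 : (npair D c d : ZMod 2) = 1 := (ZMod.natCast_eq_one_iff_odd).2 this
        rw [if_pos hA, h3, one_mul]
      · have : ¬ Odd (npair D c d) := fun h => hA ((adj_iff_odd D c d hcd.ne).2 h)
        have h3 : (npair D c d : ZMod 2) = 0 :=
          (ZMod.natCast_eq_zero_iff_even).2 (Nat.not_odd_iff_even.1 this)
        rw [if_neg hA, h3, zero_mul]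
    · simp [hcd]
  simp only [h2]
  -- exchange the sums
  have h3 : (∑ c : Fin n, ∑ d : Fin n, ∑ i : Fin (2 * n), ∑ j : Fin (2 * n), if i < j then
        (if D.chord i = c then (if D.chord j = d then (if c < d then (hh f c d : ZMod 2) else 0)
          else 0) else 0) else 0) =
      ∑ i : Fin (2 * n), ∑ j : Fin (2 * n), ∑ c : Fin n, ∑ d : Fin n, if i < j then
        (if D.chord i = c then (if D.chord j = d then (if c < d then (hh f c d : ZMod 2) else 0)
          else 0) else 0) else 0 := by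
    rw [Finset.sum_congr rfl (fun c _ => Finset.sum_comm)]
    rw [Finset.sum_comm]
    apply Finset.sum_congr rfl
    intro i _
    rw [Finset.sum_congr rfl (fun c _ => Finset.sum_comm)]
    rw [Finset.sum_comm]
  rw [h3]
  apply Finset.sum_congr rfl
  intro i _
  apply Finset.sum_congr rfl
  intro j _
  by_cases hij : i < j
  · simp [hij]
  · simp [hij]

end parity

end Pool.Agent.Q127.SL
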