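import Pool.Agent.Q127.SL.Main

/-!
# The state sum of a chord diagram in the Weyl algebra
-/

set_option autoImplicit false
set_option linter.unusedSectionVars false

namespace Pool.Agent.Q127.SL

open Polynomial Finset

section words

variable {κ R : Type*} [LinearOrder κ] [Ring R]

/-- `k` is the first point of its chord. -/
def isFst {κ : Type*} {N : ℕ} (g : Fin N → κ) (k : Fin N) : Prop := ∀ j < k, g j ≠ g k

/-- The product over a word, tails and heads. -/
def sprod (F : κ → Bool → R) : List κ → List κ → R
  | [], _ => 1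
  | c :: w, seen => F c (!decide (c ∈ seen)) * sprod F w (c :: seen)

theorem qprod_eq_sprod (a b : R) (s : κ ×ₗ Bool → Bool) : ∀ w seen : List κ,
    qprod a b s w seen = sprod (quad a b s) w seen
  | [], _ => rfl
  | c :: w, seen => by rw [qprod, sprod, qprod_eq_sprod a b s w]

theorem sprod_ofFn (F : κ → Bool → R) : ∀ (N : ℕ) (g : Fin N → κ) (seen : List κ)
    [DecidablePred (isFst g)],
    sprod F (List.ofFn g) seen =
      (List.ofFn fun k => F (g k) (decide (g k ∉ seen ∧ isFst g k))).prod
  | 0, g, seen, _ => by simp [sprod]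
  | N + 1, g, seen, _ => by
    classical
    rw [List.ofFn_succ, sprod, sprod_ofFn F N _ _, List.ofFn_succ, List.prod_cons]
    congr 1
    · congr 1
      have : isFst g 0 := fun j hj => absurd hj (Fin.not_lt_zero j)
      simp [this]
    · congr 1
      apply List.ofFn_inj.2
      funext k
      congr 1
      rw [decide_eq_decide]
      have h : isFst g k.succ ↔ g 0 ≠ g k.succ ∧ isFst (fun i => g i.succ) k := by
        unfold isFst
        rw [Fin.forall_fin_succ]
        simp [Fin.succ_lt_succ_iff]
      rw [h, List.mem_cons, not_or]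
      constructor
      · rintro ⟨⟨h1, h2⟩, h3⟩
        exact ⟨h2, Ne.symm h1, h3⟩
      · rintro ⟨h2, h1, h3⟩
        exact ⟨⟨Ne.symm h1, h2⟩, h3⟩

theorem prod_ofFn_smul {R : Type*} [Ring R] [Algebra ℂ R] : ∀ (N : ℕ) (α : Fin N → ℂ)
    (r : Fin N → R),
    (List.ofFn fun k => α k • r k).prod = (∏ k, α k) • (List.ofFn r).prod
  | 0, α, r => by simp
  | N + 1, α, r => by
    rw [List.ofFn_succ, List.prod_cons, prod_ofFn_smul N, Fin.prod_univ_succ, List.ofFn_succ,
      List.prod_cons, smul_mul_smul_comm]

end words

section state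

variable {n : ℕ}

theorem prod_chords {M : Type*} [CommMonoid M] (D : ChordDiagram n) (α : Fin n → Bool → M)
    [DecidablePred (isFst D.chord)] :
    ∏ k : Fin (2 * n), α (D.chord k) (decide (isFst D.chord k)) =
      ∏ c : Fin n, (α c true * α c false) := by
  rw [← Finset.prod_fiberwise Finset.univ D.chord]
  apply Finset.prod_congr rfl
  intro c _
  obtain ⟨i, j, hij, h⟩ := filter_pair _ (D.two c)
  rw [h, Finset.prod_pair hij.ne]
  obtain ⟨h1, h2, h3⟩ := pair_mem h
  have e1 : isFst D.chord i := by
    intro l hl he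
    rcases h3 l (he.trans h1) with rfl | rfl
    · exact absurd hl (lt_irrefl _)
    · exact absurd hl (not_lt.2 hij.le)
  have e2 : ¬ isFst D.chord j := fun hf => hf i hij (h1.trans h2.symm)
  rw [h1, h2]
  simp [e1, e2]

variable {R : Type*} [Ring R] [Algebra ℂ R]

/-- The type of a pair of states. -/
def typ (x y : Bool) : Fin 3 := if x = y then (if x then 1 else 0) else 2

/-- The scalar of a pair of states. -/
noncomputable def coef (x y : Bool) (o : Bool) : ℂ :=
  if x = y then (if x then (if o then -4 else 16) else (if o then 4 else -16))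
  else (if o then -2 else 16)

theorem coef_mul (x y : Bool) : coef x y true * coef x y false =
    if x = y then -64 else -32 := by
  cases x <;> cases y <;> norm_num [coef]

theorem quad_eq {κ : Type*} [LinearOrder κ] (a b : R) (s : κ ×ₗ Bool → Bool) (c : κ) (o : Bool) :
    quad a b s c o = coef (s (toLex (c, false))) (s (toLex (c, true))) o •
      (if o then fst ((1 / 2 : ℂ) • (a * a)) (-(1 / 2 : ℂ) • (b * b))
          ((1 / 2 : ℂ) • (a * b + b * a)) (typ (s (toLex (c, false))) (s (toLex (c, true))))
        else snd ((1 / 2 : ℂ) • (a * a)) (-(1 / 2 : ℂ) • (b * b))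
          ((1 / 2 : ℂ) • (a * b + b * a)) (typ (s (toLex (c, false))) (s (toLex (c, true))))) := by
  have e1 : ∀ b' o', lab (lt2 c b' o') = toLex (c, b') := fun _ _ => rfl
  have e2 : ∀ b' o', ori (lt2 c b' o') = o' := fun _ _ => rfl
  unfold quad val
  simp only [e1, e2]
  generalize s (toLex (c, false)) = x
  generalize s (toLex (c, true)) = y
  cases x <;> cases y <;> cases o <;>
    simp only [coef, typ, fst, snd, Bool.false_eq_true, if_false, if_true, Bool.true_eq_false,
      Matrix.cons_val_zero, Matrix.cons_val_one, Matrix.cons_val, smul_smul, mul_neg, neg_mul,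
      neg_neg] <;>
    module

theorem sum_typ (t : Fin 3) :
    ∑ xy : Bool × Bool, (if typ xy.1 xy.2 = t then coef xy.1 xy.2 true * coef xy.1 xy.2 false
      else 0) = -64 := by
  simp only [coef_mul]
  rw [Fintype.sum_prod_type]
  fin_cases t <;> simp [typ] <;> norm_num

/-- The states of the lines as pairs. -/
def pairEquiv (n : ℕ) : (Fin n ×ₗ Bool → Bool) ≃ (Fin n → Bool × Bool) where
  toFun s c := (s (toLex (c, false)), s (toLex (c, true)))
  invFun u y := if (ofLex y).2 then (u (ofLex y).1).2 else (u (ofLex y).1).1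
  left_inv s := by
    funext y
    have hy : y = toLex ((ofLex y).1, (ofLex y).2) := rfl
    rw [hy]
    generalize (ofLex y).1 = c
    generalize (ofLex y).2 = o
    cases o <;> rfl
  right_inv u := by
    funext c
    rfl

theorem sum_qprod (a b : R) (D : ChordDiagram n) :
    ∑ s : Fin n ×ₗ Bool → Bool, qprod a b s (List.ofFn D.chord) [] =
      ((-64 : ℂ) ^ n) • D.stateSum ((1 / 2 : ℂ) • (a * a)) (-(1 / 2 : ℂ) • (b * b))
          ((1 / 2 : ℂ) • (a * b + b * a)) := by
  classical
  set e : R := (1 / 2 : ℂ) • (a * a)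
  set f : R := -(1 / 2 : ℂ) • (b * b)
  set h : R := (1 / 2 : ℂ) • (a * b + b * a)
  let B : (Fin n → Fin 3) → R := fun t => (List.ofFn fun k : Fin (2 * n) =>
    if isFst D.chord k then fst e f h (t (D.chord k)) else snd e f h (t (D.chord k))).prod
  have h1 : ∀ s : Fin n ×ₗ Bool → Bool, qprod a b s (List.ofFn D.chord) [] =
      (∏ c : Fin n, (coef (pairEquiv n s c).1 (pairEquiv n s c).2 true *
        coef (pairEquiv n s c).1 (pairEquiv n s c).2 false)) •
        B (fun c => typ (pairEquiv n s c).1 (pairEquiv n s c).2) := by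
    intro s
    rw [qprod_eq_sprod, sprod_ofFn, ← prod_chords D
      (fun c o => coef (pairEquiv n s c).1 (pairEquiv n s c).2 o), ← prod_ofFn_smul]
    congr 1
    apply List.ofFn_inj.2
    funext k
    rw [quad_eq]
    have : (decide (D.chord k ∉ ([] : List (Fin n)) ∧ isFst D.chord k)) =
        decide (isFst D.chord k) := by simp
    rw [this]
    congr 1
    by_cases hk : isFst D.chord k
    · simp only [hk, decide_true, if_true]
      rfl
    · simp only [hk, decide_false, if_false]
      rfl
  have h2 : D.stateSum e f h = ∑ t : Fin n → Fin 3, B t := by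
    unfold ChordDiagram.stateSum
    apply Finset.sum_congr rfl
    intro t _
    show _ = (List.ofFn fun k : Fin (2 * n) => _).prod
    congr 1
    apply List.ofFn_inj.2
    funext k
    exact if_congr Iff.rfl rfl rfl
  rw [h2, Finset.smul_sum, ← Equiv.sum_comp (pairEquiv n).symm]
  simp only [h1, Equiv.apply_symm_apply]
  rw [← Finset.sum_fiberwise Finset.univ
    (fun u : Fin n → Bool × Bool => fun c => typ (u c).1 (u c).2)]
  apply Finset.sum_congr rfl
  intro t _
  rw [Finset.sum_congr rfl (g := fun u : Fin n → Bool × Bool =>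
    (∏ c : Fin n, (coef (u c).1 (u c).2 true * coef (u c).1 (u c).2 false)) • B t)
    (fun u hu => by rw [(Finset.mem_filter.1 hu).2]), ← Finset.sum_smul]
  congr 1
  have h3 : (-64 : ℂ) ^ n = ∏ c : Fin n, ∑ xy : Bool × Bool,
      (if typ xy.1 xy.2 = t c then coef xy.1 xy.2 true * coef xy.1 xy.2 false else 0) := by
    simp only [sum_typ]
    simp
  rw [h3, Finset.prod_univ_sum, Fintype.piFinset_univ, Finset.sum_filter]
  apply Finset.sum_congr rfl
  intro u _
  by_cases hu : (fun c => typ (u c).1 (u c).2) = t
  · rw [if_pos hu]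
    apply Finset.prod_congr rfl
    intro c _
    rw [if_pos (congrFun hu c)]
  · rw [if_neg hu]
    symm
    have : ∃ c, typ (u c).1 (u c).2 ≠ t c := by
      by_contra hh
      push Not at hh
      exact hu (funext hh)
    obtain ⟨c, hc⟩ := this
    exact Finset.prod_eq_zero (Finset.mem_univ c) (if_neg hc)

end state

end Pool.Agent.Q127.SL
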