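import Pool.Agent.Q127.SL.Defs
import Mathlib.Algebra.Lie.OfAssociative
import Mathlib.Algebra.Polynomial.Derivation
import Mathlib.LinearAlgebra.Finsupp.LSum
import Mathlib.LinearAlgebra.Eigenspace.Basic

/-!
# Representations of the enveloping algebra of `sl(2)`
-/

set_option autoImplicit false
set_option linter.unusedSectionVars false

namespace Pool.Agent.Q127.SL

open Polynomial

attribute [local instance 100] LieRing.ofAssociativeRing

section hom

variable {R : Type*} [Ring R] [Algebra ℂ R]

/-- The homomorphism of `U(sl(2))` given by three elements with the commutation relations. -/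
theorem exists_hom (e f h : R) (hef : e * f - f * e = h) (hhe : h * e - e * h = (2 : ℂ) • e)
    (hhf : h * f - f * h = -(2 : ℂ) • f) :
    ∃ φ : U2 →ₐ[ℂ] R, φ elE = e ∧ φ elF = f ∧ φ elH = h := by
  let ρ : LieAlgebra.SpecialLinear.sl (Fin 2) ℂ →ₗ⁅ℂ⁆ R :=
    { toFun := fun M => M.val 0 0 • h + M.val 0 1 • e + M.val 1 0 • f
      map_add' := fun M N => by
        have e0 : (M + N).val = M.val + N.val := rfl
        simp only [e0, Matrix.add_apply, add_smul]
        abel
      map_smul' := fun c M => by
        have e0 : (c • M).val = c • M.val := rfl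
        simp only [e0, Matrix.smul_apply, smul_eq_mul, RingHom.id_apply, smul_add, mul_smul]
      map_lie' := fun {M N} => by
        have hM : M.val 1 1 = - M.val 0 0 := by
          have h1 : M.val.trace = 0 := M.2
          rw [Matrix.trace_fin_two] at h1
          linear_combination h1
        have hN : N.val 1 1 = - N.val 0 0 := by
          have h1 : N.val.trace = 0 := N.2
          rw [Matrix.trace_fin_two] at h1
          linear_combination h1
        have hb : (⁅M, N⁆ : LieAlgebra.SpecialLinear.sl (Fin 2) ℂ).val =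
            M.val * N.val - N.val * M.val := rfl
        simp only [hb, Matrix.sub_apply, Matrix.mul_apply, Fin.sum_univ_two, hM, hN]
        rw [Ring.lie_def]
        have e1 : e * f = f * e + h := by rw [← hef]; abel
        have e2 : h * e = e * h + (2 : ℂ) • e := by rw [← hhe]; abel
        have e3 : h * f = f * h - (2 : ℂ) • f := by
          rw [sub_eq_iff_eq_add] at hhf
          rw [hhf]
          module
        simp only [mul_add, add_mul, smul_mul_assoc, mul_smul_comm, e1, e2, e3, smul_smul]
        module }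
  refine ⟨UniversalEnvelopingAlgebra.lift ℂ ρ, ?_, ?_, ?_⟩
  · unfold elE
    rw [UniversalEnvelopingAlgebra.lift_ι_apply]
    show ((LieAlgebra.SpecialLinear.single (0 : Fin 2) 1 (by decide) (1 : ℂ)).val 0 0) • h +
      ((LieAlgebra.SpecialLinear.single (0 : Fin 2) 1 (by decide) (1 : ℂ)).val 0 1) • e +
      ((LieAlgebra.SpecialLinear.single (0 : Fin 2) 1 (by decide) (1 : ℂ)).val 1 0) • f = e
    simp
  · unfold elF
    rw [UniversalEnvelopingAlgebra.lift_ι_apply]
    show ((LieAlgebra.SpecialLinear.single (1 : Fin 2) 0 (by decide) (1 : ℂ)).val 0 0) • h +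
      ((LieAlgebra.SpecialLinear.single (1 : Fin 2) 0 (by decide) (1 : ℂ)).val 0 1) • e +
      ((LieAlgebra.SpecialLinear.single (1 : Fin 2) 0 (by decide) (1 : ℂ)).val 1 0) • f = f
    simp
  · unfold elH
    rw [UniversalEnvelopingAlgebra.lift_ι_apply]
    show ((LieAlgebra.SpecialLinear.singleSubSingle (0 : Fin 2) 1 (1 : ℂ)).val 0 0) • h +
      ((LieAlgebra.SpecialLinear.singleSubSingle (0 : Fin 2) 1 (1 : ℂ)).val 0 1) • e +
      ((LieAlgebra.SpecialLinear.singleSubSingle (0 : Fin 2) 1 (1 : ℂ)).val 1 0) • f = h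
    simp

/-- The relations in `U(sl(2))`. -/
theorem rel_ef : elE * elF - elF * elE = elH := by
  unfold elE elF elH
  rw [← Ring.lie_def, ← LieHom.map_lie]
  congr 1
  apply Subtype.ext
  rw [LieAlgebra.SpecialLinear.sl_bracket]
  ext i j
  fin_cases i <;> fin_cases j <;> simp [Matrix.mul_apply, Matrix.single_apply]

theorem rel_he : elH * elE - elE * elH = (2 : ℂ) • elE := by
  unfold elE elH
  rw [← Ring.lie_def, ← LieHom.map_lie, ← map_smul]
  congr 1
  apply Subtype.ext
  rw [LieAlgebra.SpecialLinear.sl_bracket]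
  show _ = _ • Subtype.val _
  ext i j
  fin_cases i <;> fin_cases j <;>
    simp [Matrix.mul_apply, Matrix.single_apply, Matrix.smul_apply]
  norm_num

theorem rel_hf : elH * elF - elF * elH = -(2 : ℂ) • elF := by
  unfold elF elH
  rw [← Ring.lie_def, ← LieHom.map_lie, ← map_smul]
  congr 1
  apply Subtype.ext
  rw [LieAlgebra.SpecialLinear.sl_bracket]
  show _ = _ • Subtype.val _
  ext i j
  fin_cases i <;> fin_cases j <;>
    simp [Matrix.mul_apply, Matrix.single_apply, Matrix.smul_apply]
  norm_num

theorem map_stateSum {S : Type*} [Ring S] [Algebra ℂ S] (φ : R →ₐ[ℂ] S) (e f h : R) {n : ℕ}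
    (D : ChordDiagram n) : φ (D.stateSum e f h) = D.stateSum (φ e) (φ f) (φ h) := by
  unfold ChordDiagram.stateSum
  rw [map_sum]
  apply Finset.sum_congr rfl
  intro t _
  rw [map_list_prod, List.map_ofFn]
  congr 1
  apply List.ofFn_inj.2
  funext k
  have h1 : ∀ i : Fin 3, φ (fst e f h i) = fst (φ e) (φ f) (φ h) i := by
    intro i
    fin_cases i <;> rfl
  have h2 : ∀ i : Fin 3, φ (snd e f h i) = snd (φ e) (φ f) (φ h) i := by
    intro i
    fin_cases i <;> simp [snd]
  simp only [Function.comp]
  split_ifs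
  · exact h1 _
  · exact h2 _

theorem map_casimir {S : Type*} [Ring S] [Algebra ℂ S] (φ : R →ₐ[ℂ] S) (e f h : R) :
    φ (casimir e f h) = casimir (φ e) (φ f) (φ h) := by
  simp [casimir]

end hom

/-! ### The oscillator representation -/

/-- Multiplication by `x`. -/
noncomputable def opA : Module.End ℂ ℂ[X] := LinearMap.mulLeft ℂ X

/-- The derivative. -/
noncomputable def opB : Module.End ℂ ℂ[X] := derivative

theorem weyl_rel : opB * opA - opA * opB = 1 := by
  apply LinearMap.ext
  intro p
  simp [opA, opB, Module.End.mul_apply, derivative_mul]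

theorem exists_oscillator {R : Type*} [Ring R] [Algebra ℂ R] (a b : R)
    (hab : b * a - a * b = 1) :
    ∃ φ : U2 →ₐ[ℂ] R, φ elE = (1 / 2 : ℂ) • (a * a) ∧ φ elF = -(1 / 2 : ℂ) • (b * b) ∧
      φ elH = (1 / 2 : ℂ) • (a * b + b * a) := by
  have hba : b * a = a * b + 1 := by rw [← hab]; abel
  have h1 : b * b * a = a * b * b + (2 : ℂ) • b := by
    rw [mul_assoc, hba, mul_add, ← mul_assoc, hba, add_mul, mul_one, one_mul, two_smul, add_assoc]
  have h2 : b * (a * a) = a * a * b + (2 : ℂ) • a := by
    rw [← mul_assoc, hba, add_mul, mul_assoc, hba, mul_add, one_mul, mul_one, two_smul,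
      ← mul_assoc, add_assoc]
  have h3 : (b * b) * (a * a) = (a * a) * (b * b) + (4 : ℂ) • (a * b) + (2 : ℂ) • (1 : R) := by
    rw [mul_assoc, h2, mul_add, mul_smul_comm, hba, ← mul_assoc, h2, add_mul, smul_mul_assoc,
      mul_assoc (a * a)]
    module
  apply exists_hom
  · rw [smul_mul_smul_comm, smul_mul_smul_comm, h3, hba]
    module
  · have h4 : (b * a) * (a * a) = a * a * a * b + (3 : ℂ) • (a * a) := by
      rw [hba, add_mul, mul_assoc a b, h2, mul_add, mul_smul_comm, one_mul]
      rw [← mul_assoc a (a * a) b, ← mul_assoc a a a]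
      module
    have h5 : (a * a) * (b * a) = a * a * a * b + a * a := by
      rw [hba, mul_add, mul_one, ← mul_assoc]
    have h6 : (a * b) * (a * a) = a * a * a * b + (2 : ℂ) • (a * a) := by
      rw [mul_assoc, h2, mul_add, mul_smul_comm, ← mul_assoc a (a * a) b, ← mul_assoc a a a]
    have h7 : (a * a) * (a * b) = a * a * a * b := by rw [← mul_assoc]
    simp only [smul_mul_smul_comm, add_mul, mul_add, h4, h5, h6, h7]
    module
  · have h4 : (b * b) * (a * b) = a * b * b * b + (2 : ℂ) • (b * b) := by
      rw [← mul_assoc, h1, add_mul, smul_mul_assoc]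
    have h5 : (b * b) * (b * a) = a * b * b * b + (3 : ℂ) • (b * b) := by
      rw [hba, mul_add, mul_one, ← mul_assoc, h1, add_mul, smul_mul_assoc]
      module
    have h6 : (a * b) * (b * b) = a * b * b * b := by rw [← mul_assoc]
    have h7 : (b * a) * (b * b) = a * b * b * b + b * b := by
      rw [hba, add_mul, one_mul, h6]
    simp only [smul_mul_smul_comm, add_mul, mul_add, h4, h5, h6, h7]
    module

theorem casimir_oscillator {R : Type*} [Ring R] [Algebra ℂ R] (a b : R)
    (hab : b * a - a * b = 1) :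
    casimir ((1 / 2 : ℂ) • (a * a)) (-(1 / 2 : ℂ) • (b * b)) ((1 / 2 : ℂ) • (a * b + b * a)) =
      (-3 / 32 : ℂ) • (1 : R) := by
  have hba : b * a = a * b + 1 := by rw [← hab]; abel
  have h2 : b * (a * a) = a * a * b + (2 : ℂ) • a := by
    rw [← mul_assoc, hba, add_mul, mul_assoc, hba, mul_add, one_mul, mul_one, two_smul,
      ← mul_assoc, add_assoc]
  have h3 : (b * b) * (a * a) = (a * a) * (b * b) + (4 : ℂ) • (a * b) + (2 : ℂ) • (1 : R) := by
    rw [mul_assoc, h2, mul_add, mul_smul_comm, hba, ← mul_assoc, h2, add_mul, smul_mul_assoc,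
      mul_assoc (a * a)]
    module
  have h4 : (a * b) * (a * b) = (a * a) * (b * b) + a * b := by
    rw [mul_assoc, ← mul_assoc b a b, hba, add_mul, mul_add, one_mul, mul_assoc a b b,
      ← mul_assoc a a]
  unfold casimir
  simp only [smul_mul_smul_comm, hba, mul_add, add_mul, h3, h4, mul_one, one_mul]
  module

end Pool.Agent.Q127.SL
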